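import Mathlib

/-! Amalgamated products of two groups: first letters and lengths. -/

set_option autoImplicit false

namespace Pool.Agent.R790.Sep

open Classical Monoid

/-- `G` is the amalgam of `A` and `B` along `C`: `T g` is the type of the first letter of the
normal form of `g` (`some true` for `A`, `some false` for `B`, `none` for elements of `C`) and
`L g` is the number of letters. -/
structure AmStr {A B C G : Type} [Group A] [Group B] [Group C] [Group G]
    (α : C →* A) (β : C →* B) (i : A →* G) (j : B →* G) (T : G → Option Bool) (L : G → ℕ) :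
    Prop where
  comm : ∀ c, i (α c) = j (β c)
  inji : Function.Injective i
  injj : Function.Injective j
  T_one : T 1 = none
  L_one : L 1 = 0
  T_C : ∀ c g, T (i (α c) * g) = T g
  L_C : ∀ c g, L (i (α c) * g) = L g
  T_none : ∀ g, T g = none → ∃ c, g = i (α c)
  consA : ∀ a g, a ∉ α.range → T g ≠ some true → T (i a * g) = some true ∧ L (i a * g) = L g + 1
  consB : ∀ b g, b ∉ β.range → T g ≠ some false →
    T (j b * g) = some false ∧ L (j b * g) = L g + 1
  entA : ∀ g, T g = some true → ∃ a, T (i a * g) ≠ some true
  entB : ∀ g, T g = some false → ∃ b, T (j b * g) ≠ some false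

namespace AmStr

variable {A B C G : Type} [Group A] [Group B] [Group C] [Group G]
  {α : C →* A} {β : C →* B} {i : A →* G} {j : B →* G} {T : G → Option Bool} {L : G → ℕ}

/-- exchange of the two factors -/
theorem swap (h : AmStr α β i j T L) : AmStr β α j i (fun g => (T g).map not) L where
  comm c := (h.comm c).symm
  inji := h.injj
  injj := h.inji
  T_one := by simp [h.T_one]
  L_one := h.L_one
  T_C c g := by rw [← h.comm, h.T_C]
  L_C c g := by rw [← h.comm, h.L_C]
  T_none g hg := by
    obtain ⟨c, hc⟩ := h.T_none g (by simpa using hg)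
    exact ⟨c, by rw [hc, h.comm]⟩
  consA b g hb hg := by
    have h1 := h.consB b g hb (by intro h2; apply hg; simp [h2])
    exact ⟨by simp [h1.1], h1.2⟩
  consB a g ha hg := by
    have h1 := h.consA a g ha (by intro h2; apply hg; simp [h2])
    exact ⟨by simp [h1.1], h1.2⟩
  entA g hg := by
    have h2 : T g = some false := by
      rcases h3 : T g with _ | _ | _ <;> simp_all
    obtain ⟨b, hb⟩ := h.entB g h2
    refine ⟨b, ?_⟩
    intro h3; apply hb
    rcases h4 : T (j b * g) with _ | _ | _ <;> simp_all
  entB g hg := by
    have h2 : T g = some true := by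
      rcases h3 : T g with _ | _ | _ <;> simp_all
    obtain ⟨b, hb⟩ := h.entA g h2
    refine ⟨b, ?_⟩
    intro h3; apply hb
    rcases h4 : T (i b * g) with _ | _ | _ <;> simp_all

variable (h : AmStr α β i j T L)
include h

theorem T_Ci (c : C) : T (i (α c)) = none := by
  have := h.T_C c 1
  rw [mul_one, h.T_one] at this
  exact this

theorem T_A (a : A) : T (i a) ≠ some false := by
  by_cases ha : a ∈ α.range
  · obtain ⟨c, rfl⟩ := ha
    rw [h.T_Ci]; simp
  · have := (h.consA a 1 ha (by rw [h.T_one]; simp)).1
    rw [mul_one] at this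
    rw [this]; simp

theorem T_A_of_not {a : A} (ha : a ∉ α.range) : T (i a) = some true ∧ L (i a) = 1 := by
  have := h.consA a 1 ha (by rw [h.T_one]; simp)
  rw [mul_one, h.L_one] at this
  exact this

theorem T_B_of_not {b : B} (hb : b ∉ β.range) : T (j b) = some false ∧ L (j b) = 1 := by
  have := h.consB b 1 hb (by rw [h.T_one]; simp)
  rw [mul_one, h.L_one] at this
  exact this

/-- removing the first letter -/
theorem uncons {g : G} (hg : T g = some true) :
    ∃ a g', g = i a * g' ∧ a ∉ α.range ∧ T g' ≠ some true ∧ L g = L g' + 1 := by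
  obtain ⟨a, ha⟩ := h.entA g hg
  have h1 : a⁻¹ ∉ α.range := by
    rintro ⟨c, hc⟩
    apply ha
    have h2 := h.T_C c⁻¹ g
    rw [map_inv, hc, inv_inv] at h2
    rw [h2, hg]
  have h2 := h.consA a⁻¹ (i a * g) h1 ha
  have h3 : i a⁻¹ * (i a * g) = g := by rw [map_inv, inv_mul_cancel_left]
  rw [h3] at h2
  exact ⟨a⁻¹, i a * g, h3.symm, h1, ha, h2.2⟩

theorem uncons' {g : G} (hg : T g = some false) :
    ∃ b g', g = j b * g' ∧ b ∉ β.range ∧ T g' ≠ some false ∧ L g = L g' + 1 := by
  obtain ⟨b, g', h1, h2, h3, h4⟩ := h.swap.uncons (g := g) (by simp [hg])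
  refine ⟨b, g', h1, h2, ?_, h4⟩
  intro h5
  apply h3
  simp [h5]

/-- right multiplication by `A` does not change the type of an element starting with `B` -/
theorem right_A_aux (n : ℕ) : ∀ x, L x ≤ n → (T x = some false → ∀ a, T (x * i a) = some false) := by
  induction n using Nat.strong_induction_on with
  | _ n ih =>
  intro x hx hT a
  obtain ⟨b, x', rfl, hb, hx', hL⟩ := h.uncons' hT
  rw [mul_assoc]
  refine (h.consB b _ hb ?_).1
  rcases h1 : T x' with _ | _ | _
  · obtain ⟨c, rfl⟩ := h.T_none _ h1
    rw [← map_mul]
    exact h.T_A _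
  · exact absurd h1 hx'
  · obtain ⟨a', x'', rfl, ha', hx'', hL'⟩ := h.uncons h1
    rw [mul_assoc]
    by_cases h2 : T x'' = some false
    · have h3 := ih (L x'') (by omega) x'' le_rfl h2 a
      rw [(h.consA a' _ ha' (by rw [h3]; simp)).1]; simp
    · have h3 : T x'' = none := by
        rcases h4 : T x'' with _ | _ | _ <;> simp_all
      obtain ⟨c, rfl⟩ := h.T_none _ h3
      rw [← map_mul, ← map_mul]
      exact h.T_A _

theorem right_A {x : G} (hT : T x = some false) (a : A) : T (x * i a) = some false :=
  h.right_A_aux _ x le_rfl hT a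

theorem right_B {x : G} (hT : T x = some true) (b : B) : T (x * j b) = some true := by
  have := h.swap.right_A (x := x) (by simp [hT]) b
  rcases h1 : T (x * j b) with _ | _ | _ <;> simp_all

theorem mem_C_of_eq {a : A} {b : B} (hab : i a = j b) : ∃ c, a = α c ∧ b = β c := by
  have ha : a ∈ α.range := by
    by_contra ha
    by_cases hb : b ∈ β.range
    · obtain ⟨c, rfl⟩ := hb
      rw [← h.comm] at hab
      exact ha ⟨c, (h.inji hab).symm⟩
    · have h1 := (h.T_A_of_not ha).1
      rw [hab, (h.T_B_of_not hb).1] at h1
      simp at h1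
  obtain ⟨c, rfl⟩ := ha
  rw [h.comm] at hab
  exact ⟨c, rfl, (h.injj hab).symm⟩

end AmStr

/-- Two-element family of groups -/
def Fam (A B : Type) : Bool → Type
  | true => A
  | false => B

instance famGroup (A B : Type) [Group A] [Group B] : ∀ b, Group (Fam A B b)
  | true => inferInstanceAs (Group A)
  | false => inferInstanceAs (Group B)

/-- the two maps as a family -/
def famHom {A B C : Type} [Group A] [Group B] [Group C] (α : C →* A) (β : C →* B) :
    ∀ b, C →* Fam A B b
  | true => α
  | false => β

/-- An amalgam of two groups. -/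
structure Amalgam {A B C : Type} [Group A] [Group B] [Group C] (α : C →* A) (β : C →* B) where
  /-- the group -/
  G : Type
  [grp : Group G]
  /-- first factor -/
  i : A →* G
  /-- second factor -/
  j : B →* G
  /-- type of the first letter -/
  T : G → Option Bool
  /-- length -/
  L : G → ℕ
  str : AmStr α β i j T L
  lift : ∀ (K : Type) [Group K] (f : A →* K) (g : B →* K), (∀ c, f (α c) = g (β c)) →
    ∃ k : G →* K, (∀ a, k (i a) = f a) ∧ ∀ b, k (j b) = g b
  gen : Subgroup.closure (Set.range i ∪ Set.range j) = ⊤

attribute [instance] Amalgam.grp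

theorem exists_amalgam {A B C : Type} [Group A] [Group B] [Group C] (α : C →* A) (β : C →* B)
    (hα : Function.Injective α) (hβ : Function.Injective β) : Nonempty (Amalgam α β) := by
  have hφ : ∀ b, Function.Injective (famHom α β b) := by
    intro b; cases b
    · exact hβ
    · exact hα
  obtain ⟨d⟩ := PushoutI.NormalWord.transversal_nonempty (famHom α β) hφ
  let φ := famHom α β
  let i : A →* PushoutI φ := PushoutI.of (φ := φ) true
  let j : B →* PushoutI φ := PushoutI.of (φ := φ) false
  let T : PushoutI φ → Option Bool := fun g =>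
    (g • (PushoutI.NormalWord.empty : PushoutI.NormalWord d)).fstIdx
  let L : PushoutI φ → ℕ := fun g =>
    (g • (PushoutI.NormalWord.empty : PushoutI.NormalWord d)).toList.length
  have hbaseT : ∀ c g, T (PushoutI.base φ c * g) = T g := by
    intro c g
    show ((PushoutI.base φ c * g) • (PushoutI.NormalWord.empty : PushoutI.NormalWord d)).fstIdx = _
    rw [mul_smul, PushoutI.NormalWord.base_smul_eq_smul]
    rfl
  have hbaseL : ∀ c g, L (PushoutI.base φ c * g) = L g := by
    intro c g
    show ((PushoutI.base φ c * g) •
      (PushoutI.NormalWord.empty : PushoutI.NormalWord d)).toList.length = _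
    rw [mul_smul, PushoutI.NormalWord.base_smul_eq_smul]
    rfl
  have hcons : ∀ (b : Bool) (x : Fam A B b) (g : PushoutI φ), x ∉ (φ b).range → T g ≠ some b →
      T (PushoutI.of b x * g) = some b ∧ L (PushoutI.of b x * g) = L g + 1 := by
    intro b x g hx hg
    have h1 := PushoutI.NormalWord.cons_eq_smul x
      (g • (PushoutI.NormalWord.empty : PushoutI.NormalWord d)) hg hx
    rw [← mul_smul] at h1
    constructor
    · show ((PushoutI.of (φ := φ) b x * g) •
        (PushoutI.NormalWord.empty : PushoutI.NormalWord d)).fstIdx = _
      rw [← h1]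
      simp [PushoutI.NormalWord.cons, CoprodI.Word.fstIdx, CoprodI.Word.cons]
    · show ((PushoutI.of (φ := φ) b x * g) •
        (PushoutI.NormalWord.empty : PushoutI.NormalWord d)).toList.length = _
      rw [← h1]
      simp [PushoutI.NormalWord.cons, CoprodI.Word.cons, L]
  have hent0 : ∀ (w : PushoutI.NormalWord d) (b : Bool), w.fstIdx = some b →
      ∃ x : Fam A B b, (PushoutI.of (φ := φ) b x • w).fstIdx ≠ some b := by
    intro w
    induction w using PushoutI.NormalWord.consRecOn with
    | empty =>
      intro i hi
      simp [CoprodI.Word.fstIdx] at hi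
    | cons b' g w hmw hgn hgr hw1 ih =>
      intro b hb
      have h1 : (PushoutI.NormalWord.cons g w hmw hgr).fstIdx = some b' := by
        simp [PushoutI.NormalWord.cons, CoprodI.Word.fstIdx, CoprodI.Word.cons]
      have hij : b' = b := by rw [h1] at hb; exact Option.some.inj hb
      subst hij
      refine ⟨g⁻¹, ?_⟩
      rw [PushoutI.NormalWord.cons_eq_smul, ← mul_smul, ← map_mul, inv_mul_cancel, map_one,
        one_smul]
      exact hmw
    | base c w hw1 ih =>
      intro b hb
      have hb' : w.fstIdx = some b := by
        rw [PushoutI.NormalWord.base_smul_eq_smul] at hb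
        exact hb
      obtain ⟨g, hg⟩ := ih b hb'
      refine ⟨g * φ b c⁻¹, ?_⟩
      rw [map_mul, PushoutI.of_apply_eq_base, mul_smul, ← mul_smul (PushoutI.base φ c⁻¹),
        ← map_mul, inv_mul_cancel, map_one, one_smul]
      exact hg
  refine ⟨{
    G := PushoutI φ
    i := i
    j := j
    T := T
    L := L
    str := ?_
    lift := ?_
    gen := ?_ }⟩
  · constructor
    · intro c
      exact (PushoutI.of_apply_eq_base φ true c).trans (PushoutI.of_apply_eq_base φ false c).symm
    · exact PushoutI.of_injective hφ true
    · exact PushoutI.of_injective hφ false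
    · show ((1 : PushoutI φ) • (PushoutI.NormalWord.empty : PushoutI.NormalWord d)).fstIdx = none
      rw [one_smul]
      simp [CoprodI.Word.fstIdx]
    · show ((1 : PushoutI φ) •
        (PushoutI.NormalWord.empty : PushoutI.NormalWord d)).toList.length = 0
      rw [one_smul]
      simp
    · intro c g
      have : i (α c) = PushoutI.base φ c := PushoutI.of_apply_eq_base φ true c
      rw [this]; exact hbaseT c g
    · intro c g
      have : i (α c) = PushoutI.base φ c := PushoutI.of_apply_eq_base φ true c
      rw [this]; exact hbaseL c g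
    · intro x hx
      have h1 : (x • (PushoutI.NormalWord.empty : PushoutI.NormalWord d)).prod = x := by
        rw [PushoutI.NormalWord.prod_smul, PushoutI.NormalWord.prod_empty, mul_one]
      set w := x • (PushoutI.NormalWord.empty : PushoutI.NormalWord d) with hw
      have h2 : w.toList = [] := by
        have h3 : w.toList.head?.map Sigma.fst = none := hx
        rw [Option.map_eq_none_iff, List.head?_eq_none_iff] at h3
        exact h3
      have h3 : w.toWord = CoprodI.Word.empty := CoprodI.Word.ext h2
      have h4 : w.prod = PushoutI.base φ w.head := by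
        show PushoutI.base φ w.head * PushoutI.ofCoprodI w.toWord.prod = _
        rw [h3, CoprodI.Word.prod_empty, map_one, mul_one]
      refine ⟨w.head, ?_⟩
      have : i (α w.head) = PushoutI.base φ w.head := PushoutI.of_apply_eq_base φ true w.head
      rw [this, ← h4, h1]
    · intro a g ha hg
      exact hcons true a g ha hg
    · intro b g hb hg
      exact hcons false b g hb hg
    · intro g hg
      obtain ⟨x, hx⟩ := hent0 _ true hg
      refine ⟨x, ?_⟩
      rw [← mul_smul] at hx
      exact hx
    · intro g hg
      obtain ⟨x, hx⟩ := hent0 _ false hg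
      refine ⟨x, ?_⟩
      rw [← mul_smul] at hx
      exact hx
  · intro K _ f g hfg
    let F : ∀ b, Fam A B b →* K := fun b => match b with
      | true => f
      | false => g
    refine ⟨PushoutI.lift F (f.comp α) ?_, ?_, ?_⟩
    · intro b
      cases b
      · ext c; exact (hfg c).symm
      · rfl
    · intro a
      exact PushoutI.lift_of F (f.comp α) _ (i := true) a
    · intro b
      exact PushoutI.lift_of F (f.comp α) _ (i := false) b
  · rw [eq_top_iff]
    intro x _
    induction x using PushoutI.induction_on with
    | of b g =>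
      apply Subgroup.subset_closure
      cases b
      · exact Or.inr ⟨g, rfl⟩
      · exact Or.inl ⟨g, rfl⟩
    | base c =>
      apply Subgroup.subset_closure
      exact Or.inl ⟨α c, PushoutI.of_apply_eq_base φ true c⟩
    | mul x y hx hy => exact Subgroup.mul_mem _ (hx trivial) (hy trivial)

/-- the amalgam of two groups along injective maps -/
noncomputable def amOf {A B C : Type} [Group A] [Group B] [Group C] (α : C →* A) (β : C →* B)
    (hα : Function.Injective α) (hβ : Function.Injective β) : Amalgam α β :=
  Classical.choice (exists_amalgam α β hα hβ)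

end Pool.Agent.R790.Sep
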