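import Mathlib

/-! Separation profiles, hyperbolicity and Cayley graphs. -/

set_option autoImplicit false

namespace Pool.Agent.R790.Sep

/-- `S` is a set of vertices of `Λ` such that every connected component of `Λ - S` has at most
half of the vertices of `Λ`. -/
def IsCut {V : Type} {Γ : SimpleGraph V} (Λ : Γ.Subgraph) (S : Set V) : Prop :=
  S ⊆ Λ.verts ∧ ∀ C : (Λ.deleteVerts S).coe.ConnectedComponent, 2 * C.supp.ncard ≤ Λ.verts.ncard

/-- The least size of a vertex set `S` of the finite graph `Λ` such that every connected component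
of `Λ - S` has at most half of the vertices of `Λ`. -/
noncomputable def cut {V : Type} {Γ : SimpleGraph V} (Λ : Γ.Subgraph) : ℕ :=
  sInf {k | ∃ S : Set V, IsCut Λ S ∧ S.ncard = k}

/-- The separation profile: the maximum of the cuts of subgraphs with at most `n` vertices. -/
noncomputable def sep {V : Type} (Γ : SimpleGraph V) (n : ℕ) : ℕ :=
  sSup {k | ∃ Λ : Γ.Subgraph, Λ.verts.Finite ∧ Λ.verts.ncard ≤ n ∧ cut Λ = k}

/-- Gromov hyperbolicity of the vertex set with the graph metric: all geodesic triangles are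
`δ`-slim for some `δ`. -/
def Hyperbolic {V : Type} (Γ : SimpleGraph V) : Prop :=
  ∃ δ : ℕ, ∀ (x y z : V) (p : Γ.Walk x y) (q : Γ.Walk y z) (r : Γ.Walk x z),
    p.length = Γ.dist x y → q.length = Γ.dist y z → r.length = Γ.dist x z →
    ∀ u ∈ p.support, ∃ v, (v ∈ q.support ∨ v ∈ r.support) ∧ Γ.dist u v ≤ δ

/-- The Cayley graph of a group with respect to three elements. -/
def Cay {G : Type} [Group G] (a : Fin 3 → G) : SimpleGraph G where
  Adj x y := x ≠ y ∧ ∃ k, y = x * a k ∨ x = y * a k
  symm := ⟨fun _ _ h => ⟨h.1.symm, h.2.imp fun _ hk => hk.symm⟩⟩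
  loopless := ⟨fun _ h => h.1 rfl⟩

end Pool.Agent.R790.Sep
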