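import Mathlib

/-! Finite groups generated by two overgroups of index two of a common group. -/

set_option autoImplicit false

namespace Pool.Agent.R790.Sep

open Classical

/-- the homomorphism with kernel a subgroup of index two onto the group of an involution -/
noncomputable def chi {E P D : Type} [Group E] [Group P] [Group D] (e : E →* P)
    (he : e.range.index = 2) (t : D) (ht : t * t = 1) : P →* D :=
  MonoidHom.mk' (fun x => if x ∈ e.range then 1 else t) (by
    intro x y
    have := Subgroup.mul_mem_iff_of_index_two he (a := x) (b := y)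
    by_cases hx : x ∈ e.range <;> by_cases hy : y ∈ e.range <;> simp_all)

theorem chi_mem {E P D : Type} [Group E] [Group P] [Group D] (e : E →* P)
    (he : e.range.index = 2) (t : D) (ht : t * t = 1) (x : P) (hx : x ∈ e.range) :
    chi e he t ht x = 1 := if_pos hx

theorem chi_not {E P D : Type} [Group E] [Group P] [Group D] (e : E →* P)
    (he : e.range.index = 2) (t : D) (ht : t * t = 1) (x : P) (hx : x ∉ e.range) :
    chi e he t ht x = t := if_neg hx

theorem exists_not_mem {E P : Type} [Group E] [Group P] (e : E →* P)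
    (he : e.range.index = 2) : ∃ p0, p0 ∉ e.range := by
  obtain ⟨a, ha⟩ := Subgroup.index_eq_two_iff.1 he
  by_contra hcon
  push Not at hcon
  have := ha 1
  rw [one_mul] at this
  rcases this with h | h
  · exact h.2 (hcon _)
  · exact h.2 (hcon _)

theorem sig_bij {E P : Type} [Group E] [Group P] (e : E →* P) (hinj : Function.Injective e)
    (he : e.range.index = 2) (p0 : P) (hp0 : p0 ∉ e.range) :
    Function.Bijective (fun x : E × Bool => e x.1 * (if x.2 then p0 else 1)) := by
  constructor
  · rintro ⟨c, s⟩ ⟨c', s'⟩ h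
    simp only at h
    cases s <;> cases s' <;> simp at h
    · rw [hinj h]
    · exfalso
      apply hp0
      refine ⟨c'⁻¹ * c, ?_⟩
      rw [map_mul, map_inv, h, inv_mul_cancel_left]
    · exfalso
      apply hp0
      refine ⟨c⁻¹ * c', ?_⟩
      rw [map_mul, map_inv, ← h, inv_mul_cancel_left]
    · rw [hinj h]
  · intro x
    by_cases hx : x ∈ e.range
    · obtain ⟨c, hc⟩ := hx
      exact ⟨(c, false), by simp [hc]⟩
    · have h1 : x * p0⁻¹ ∈ e.range := by
        rw [Subgroup.mul_mem_iff_of_index_two he]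
        simp [hx, hp0]
      obtain ⟨c, hc⟩ := h1
      exact ⟨(c, true), by simp [hc]⟩

/-- left translations as permutations -/
def prm {P Ω : Type} [Group P] (τ : Ω ≃ P × Bool) : P →* Equiv.Perm Ω :=
  MonoidHom.mk' (fun x =>
    { toFun := fun y => τ.symm (x * (τ y).1, (τ y).2)
      invFun := fun y => τ.symm (x⁻¹ * (τ y).1, (τ y).2)
      left_inv := by intro y; simp
      right_inv := by intro y; simp }) (by
    intro x y
    ext z
    simp [mul_assoc])

theorem prm_apply {P Ω : Type} [Group P] (τ : Ω ≃ P × Bool) (x : P) (y : Ω) :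
    prm τ x y = τ.symm (x * (τ y).1, (τ y).2) := rfl

theorem exists_H {E P Q : Type} [Group E] [Group P] [Group Q] [Finite E] (e : E →* P)
    (f : E →* Q) (he : Function.Injective e) (hf : Function.Injective f)
    (he2 : e.range.index = 2) (hf2 : f.range.index = 2) :
    ∃ (H : Type) (_ : Group H) (_ : Finite H) (ρ : P →* H) (ρ' : Q →* H),
      (∀ c, ρ (e c) = ρ' (f c)) ∧ ∀ c, ρ (e c) = 1 → c = 1 := by
  obtain ⟨p0, hp0⟩ := exists_not_mem e he2
  obtain ⟨q0, hq0⟩ := exists_not_mem f hf2
  let σ := Equiv.ofBijective _ (sig_bij e he he2 p0 hp0)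
  let σ' := Equiv.ofBijective _ (sig_bij f hf hf2 q0 hq0)
  let τ : E × Bool × Bool ≃ P × Bool :=
    { toFun := fun x => (σ (x.1, x.2.1), x.2.2)
      invFun := fun y => ((σ.symm y.1).1, (σ.symm y.1).2, y.2)
      left_inv := by rintro ⟨c, s, t⟩; simp
      right_inv := by rintro ⟨x, t⟩; simp }
  let τ' : E × Bool × Bool ≃ Q × Bool :=
    { toFun := fun x => (σ' (x.1, x.2.2), x.2.1)
      invFun := fun y => ((σ'.symm y.1).1, y.2, (σ'.symm y.1).2)
      left_inv := by rintro ⟨c, s, t⟩; simp
      right_inv := by rintro ⟨x, t⟩; simp }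
  have h1 : ∀ c c' s t, prm τ (e c) (c', s, t) = (c * c', s, t) := by
    intro c c' s t
    rw [prm_apply, Equiv.symm_apply_eq]
    show (e c * (e c' * (if s then p0 else 1)), t) = (e (c * c') * (if s then p0 else 1), t)
    rw [map_mul, mul_assoc]
  have h2 : ∀ c c' s t, prm τ' (f c) (c', s, t) = (c * c', s, t) := by
    intro c c' s t
    rw [prm_apply, Equiv.symm_apply_eq]
    show (f c * (f c' * (if t then q0 else 1)), s) = (f (c * c') * (if t then q0 else 1), s)
    rw [map_mul, mul_assoc]
  refine ⟨Equiv.Perm (E × Bool × Bool), inferInstance, inferInstance, prm τ, prm τ', ?_, ?_⟩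
  · intro c
    ext1 ⟨c', s, t⟩
    rw [h1, h2]
  · intro c hc
    have h3 := h1 c 1 true true
    rw [hc] at h3
    simp only [Equiv.Perm.coe_one, id_eq, mul_one, Prod.mk.injEq] at h3
    exact h3.1.symm

/-- alternating products -/
def alt {D : Type} [Group D] (g : Bool → D) : Bool → ℕ → D
  | _, 0 => 1
  | t, n + 1 => g t * alt g (!t) n

theorem alt_map {D D' : Type} [Group D] [Group D'] (g : Bool → D) (k : D →* D') (t : Bool)
    (n : ℕ) : k (alt g t n) = alt (fun t => k (g t)) t n := by
  induction n generalizing t with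
  | zero => exact map_one k
  | succ n ih => simp only [alt, map_mul, ih]

theorem alt_even {D : Type} [Group D] (g : Bool → D) (t : Bool) (k : ℕ) :
    alt g t (2 * k) = (g t * g (!t)) ^ k := by
  induction k with
  | zero => simp [alt]
  | succ k ih =>
    rw [show 2 * (k + 1) = 2 * k + 1 + 1 by ring]
    simp only [alt, Bool.not_not, ih, pow_succ']
    rw [mul_assoc]

theorem alt_odd {D : Type} [Group D] (g : Bool → D) (t : Bool) (k : ℕ) :
    alt g t (2 * k + 1) = (g t * g (!t)) ^ k * g t := by
  induction k with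
  | zero => simp [alt]
  | succ k ih =>
    rw [show 2 * (k + 1) + 1 = (2 * k + 1) + 1 + 1 by ring]
    simp only [alt, Bool.not_not] at ih ⊢
    rw [ih, pow_succ']
    simp only [mul_assoc]

theorem r_eq_one {m : ℕ} (i : ZMod m) : (DihedralGroup.r i : DihedralGroup m) = 1 ↔ i = 0 := by
  constructor
  · intro h
    exact DihedralGroup.r.inj (h.trans DihedralGroup.one_def)
  · rintro rfl
    exact DihedralGroup.one_def.symm

theorem sr_ne_one {m : ℕ} (i : ZMod m) : (DihedralGroup.sr i : DihedralGroup m) ≠ 1 := by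
  intro h
  have h2 := h.trans DihedralGroup.one_def
  cases h2

/-- the two reflections -/
def dg (m : ℕ) : Bool → DihedralGroup m
  | true => .sr 0
  | false => .sr 1

theorem dg_alt_even (m : ℕ) (t : Bool) (k : ℕ) :
    alt (dg m) t (2 * k) = .r (if t then (k : ZMod m) else -(k : ZMod m)) := by
  rw [alt_even]
  cases t
  · simp only [dg, Bool.not_false, DihedralGroup.sr_mul_sr]
    rw [show (0 - 1 : ZMod m) = -1 by ring, DihedralGroup.r_pow]
    simp
  · simp only [dg, Bool.not_true, DihedralGroup.sr_mul_sr, sub_zero]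
    rw [DihedralGroup.r_one_pow]
    simp

theorem dg_alt_odd (m : ℕ) (t : Bool) (k : ℕ) :
    alt (dg m) t (2 * k + 1) = .sr (if t then -(k : ZMod m) else 1 + (k : ZMod m)) := by
  rw [alt_odd]
  cases t
  · simp only [dg, Bool.not_false, DihedralGroup.sr_mul_sr]
    rw [show (0 - 1 : ZMod m) = -1 by ring, DihedralGroup.r_pow, DihedralGroup.r_mul_sr]
    simp
  · simp only [dg, Bool.not_true, DihedralGroup.sr_mul_sr, sub_zero]
    rw [DihedralGroup.r_one_pow, DihedralGroup.r_mul_sr]
    simp

/-- A finite group generated by two groups of order twice that of a common subgroup, with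
dihedral quotient. -/
structure FinAm {E P Q : Type} [Group E] [Group P] [Group Q] (e : E →* P) (f : E →* Q)
    (m : ℕ) where
  /-- the group -/
  F : Type
  [grp : Group F]
  [fin : Finite F]
  /-- inclusion of the first group -/
  a : P →* F
  /-- inclusion of the second group -/
  b : Q →* F
  /-- the dihedral quotient -/
  π : F →* DihedralGroup m
  comm : ∀ c, a (e c) = b (f c)
  inja : Function.Injective a
  injb : Function.Injective b
  ker : ∀ x, π x = 1 → ∃ c, x = a (e c)
  πe : ∀ c, π (a (e c)) = 1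
  πa : ∀ x, x ∉ e.range → π (a x) = dg m true
  πb : ∀ x, x ∉ f.range → π (b x) = dg m false
  gen : Subgroup.closure (Set.range a ∪ Set.range b) = ⊤

attribute [instance] FinAm.grp FinAm.fin

theorem exists_FinAm {E P Q : Type} [Group E] [Group P] [Group Q] [Finite E] (e : E →* P)
    (f : E →* Q) (he : Function.Injective e) (hf : Function.Injective f)
    (he2 : e.range.index = 2) (hf2 : f.range.index = 2) (M : ℕ) :
    ∃ m', M < 4 * m' ∧ Nonempty (FinAm e f (4 * m')) := by
  obtain ⟨H, _, _, ρ, ρ', h1, h2⟩ := exists_H e f he hf he2 hf2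
  have : Fintype H := Fintype.ofFinite H
  have hcard : 0 < Nat.card H := Nat.card_pos
  refine ⟨(M + 1) * Nat.card H, by nlinarith, ?_⟩
  set m := 4 * ((M + 1) * Nat.card H) with hm
  have hm0 : 0 < m := by positivity
  have : NeZero m := ⟨hm0.ne'⟩
  have hsq : ∀ t, dg m t * dg m t = 1 := by
    intro t; cases t <;> simp only [dg, DihedralGroup.sr_mul_sr, r_eq_one, sub_self]
  let a' : P →* H × DihedralGroup m := ρ.prod (chi e he2 (dg m true) (hsq true))
  let b' : Q →* H × DihedralGroup m := ρ'.prod (chi f hf2 (dg m false) (hsq false))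
  have ha' : ∀ x, a' x = (ρ x, chi e he2 (dg m true) (hsq true) x) := fun _ => rfl
  have hb' : ∀ x, b' x = (ρ' x, chi f hf2 (dg m false) (hsq false) x) := fun _ => rfl
  have hcomm : ∀ c, a' (e c) = b' (f c) := by
    intro c
    rw [ha', hb', chi_mem _ _ _ _ _ ⟨c, rfl⟩, chi_mem _ _ _ _ _ ⟨c, rfl⟩, h1]
  have hdg : ∀ t, dg m t ≠ 1 := by
    intro t; cases t
    · exact sr_ne_one _
    · exact sr_ne_one _
  have hinja : Function.Injective a' := by
    rw [injective_iff_map_eq_one]
    intro x hx
    rw [ha'] at hx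
    have h3 := (Prod.mk.inj hx).1
    have h4 := (Prod.mk.inj hx).2
    have h5 : x ∈ e.range := by
      by_contra h5
      rw [chi_not _ _ _ _ _ h5] at h4
      exact hdg _ h4
    obtain ⟨c, rfl⟩ := h5
    rw [h2 c h3, map_one]
  have hinjb : Function.Injective b' := by
    rw [injective_iff_map_eq_one]
    intro x hx
    rw [hb'] at hx
    have h3 := (Prod.mk.inj hx).1
    have h4 := (Prod.mk.inj hx).2
    have h5 : x ∈ f.range := by
      by_contra h5
      rw [chi_not _ _ _ _ _ h5] at h4
      exact hdg _ h4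
    obtain ⟨c, rfl⟩ := h5
    rw [h2 c (by rw [h1]; exact h3), map_one]
  obtain ⟨p0, hp0⟩ := exists_not_mem e he2
  obtain ⟨q0, hq0⟩ := exists_not_mem f hf2
  let g : Bool → H × DihedralGroup m := fun t => if t then a' p0 else b' q0
  let W : Set (H × DihedralGroup m) := {x | ∃ c t n, x = a' (e c) * alt g t n}
  have hWe : ∀ c, ∀ x ∈ W, a' (e c) * x ∈ W := by
    rintro c x ⟨c', t, n, rfl⟩
    exact ⟨c * c', t, n, by rw [map_mul, map_mul, mul_assoc]⟩
  have hconja : ∀ c, ∃ c', a' p0 * a' (e c) = a' (e c') * a' p0 := by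
    intro c
    have hn : e.range.Normal := Subgroup.normal_of_index_eq_two he2
    obtain ⟨c', hc'⟩ := hn.conj_mem (e c) ⟨c, rfl⟩ p0
    refine ⟨c', ?_⟩
    rw [hc', map_mul, map_mul, map_inv, inv_mul_cancel_right]
  have hconjb : ∀ c, ∃ c', b' q0 * a' (e c) = a' (e c') * b' q0 := by
    intro c
    have hn : f.range.Normal := Subgroup.normal_of_index_eq_two hf2
    obtain ⟨c', hc'⟩ := hn.conj_mem (f c) ⟨c, rfl⟩ q0
    refine ⟨c', ?_⟩
    rw [hcomm, hcomm, hc', map_mul, map_mul, map_inv, inv_mul_cancel_right]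
  have hsqa : ∃ c, a' p0 * a' p0 = a' (e c) := by
    have : p0 * p0 ∈ e.range := by rw [Subgroup.mul_mem_iff_of_index_two he2]
    obtain ⟨c, hc⟩ := this
    exact ⟨c, by rw [hc, map_mul]⟩
  have hsqb : ∃ c, b' q0 * b' q0 = a' (e c) := by
    have : q0 * q0 ∈ f.range := by rw [Subgroup.mul_mem_iff_of_index_two hf2]
    obtain ⟨c, hc⟩ := this
    exact ⟨c, by rw [hcomm, hc, map_mul]⟩
  have hg1 : ∀ t c, ∃ c', g t * a' (e c) = a' (e c') * g t := by
    intro t c
    cases t
    · exact hconjb c
    · exact hconja c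
  have hg2 : ∀ t, ∃ c, g t * g t = a' (e c) := by
    intro t
    cases t
    · exact hsqb
    · exact hsqa
  have hWg : ∀ t, ∀ x ∈ W, g t * x ∈ W := by
    rintro t x ⟨c, s, n, rfl⟩
    obtain ⟨c', hc'⟩ := hg1 t c
    rw [← mul_assoc, hc', mul_assoc]
    apply hWe
    by_cases hts : s = !t
    · subst hts
      exact ⟨1, t, n + 1, by simp [alt]⟩
    · have hst : s = t := by cases s <;> cases t <;> simp_all
      subst hst
      cases n with
      | zero => exact ⟨1, s, 1, by simp [alt]⟩
      | succ n =>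
        obtain ⟨c'', hc''⟩ := hg2 s
        refine ⟨c'', !s, n, ?_⟩
        simp only [alt]
        rw [← mul_assoc, hc'']
  have hWa : ∀ x, ∀ y ∈ W, a' x * y ∈ W := by
    intro x y hy
    obtain ⟨⟨c, s⟩, hcs⟩ := (sig_bij e he he2 p0 hp0).2 x
    rw [← hcs, map_mul, mul_assoc]
    apply hWe
    cases s
    · simpa using hy
    · have := hWg true y hy
      simpa [g] using this
  have hWb : ∀ x, ∀ y ∈ W, b' x * y ∈ W := by
    intro x y hy
    obtain ⟨⟨c, s⟩, hcs⟩ := (sig_bij f hf hf2 q0 hq0).2 x
    rw [← hcs, map_mul, mul_assoc, ← hcomm]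
    apply hWe
    cases s
    · simpa using hy
    · have := hWg false y hy
      simpa [g] using this
  let K : Subgroup (H × DihedralGroup m) := Subgroup.closure (Set.range a' ∪ Set.range b')
  have hKa : ∀ x, a' x ∈ K := fun x => Subgroup.subset_closure (Or.inl ⟨x, rfl⟩)
  have hKb : ∀ x, b' x ∈ K := fun x => Subgroup.subset_closure (Or.inr ⟨x, rfl⟩)
  have hKW : ∀ x ∈ K, x ∈ W := by
    intro x hx
    have key : ∀ x ∈ K, ∀ y ∈ W, x * y ∈ W := by
      intro x hx
      induction hx using Subgroup.closure_induction with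
      | mem x hx =>
        rcases hx with ⟨z, rfl⟩ | ⟨z, rfl⟩
        · exact hWa z
        · exact hWb z
      | one => intro y hy; rw [one_mul]; exact hy
      | mul x y _ _ hx hy => intro z hz; rw [mul_assoc]; exact hx _ (hy _ hz)
      | inv x hx ih =>
        intro y hy
        -- finite order
        have hfin : IsOfFinOrder x := isOfFinOrder_of_finite x
        obtain ⟨n, hn, hn'⟩ := hfin.exists_pow_eq_one
        have h3 : x⁻¹ = x ^ (n - 1) := by
          rw [inv_eq_iff_mul_eq_one, ← pow_succ', Nat.sub_add_cancel hn, hn']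
        rw [h3]
        have h4 : ∀ k : ℕ, x ^ k * y ∈ W := by
          intro k
          induction k with
          | zero => rw [pow_zero, one_mul]; exact hy
          | succ k ih2 => rw [pow_succ', mul_assoc]; exact ih _ ih2
        exact h4 _
    have h3 := key x hx 1 ⟨1, true, 0, by simp [alt]⟩
    rwa [mul_one] at h3
  have hg3 : ∀ t, (g t).2 = dg m t := by
    intro t
    cases t
    · show (b' q0).2 = _
      rw [hb']
      exact chi_not _ _ _ _ _ hq0
    · show (a' p0).2 = _
      rw [ha']
      exact chi_not _ _ _ _ _ hp0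
  have hpow : ∀ z : H, ∀ k, m ∣ k → z ^ k = 1 := by
    rintro z k ⟨l, rfl⟩
    have : m * l = Nat.card H * (4 * (M + 1) * l) := by rw [hm]; ring
    rw [this, pow_mul, pow_card_eq_one', one_pow]
  have hker : ∀ x ∈ K, x.2 = 1 → ∃ c, x = a' (e c) := by
    intro x hx hx2
    obtain ⟨c, t, n, rfl⟩ := hKW x hx
    refine ⟨c, ?_⟩
    have h3 : alt (dg m) t n = 1 := by
      have h4 := alt_map g (MonoidHom.snd H (DihedralGroup m)) t n
      simp only [MonoidHom.coe_snd, hg3] at h4
      rw [← h4]
      have h5 : (a' (e c)).2 = 1 := by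
        rw [ha']
        exact chi_mem _ _ _ _ _ ⟨c, rfl⟩
      rw [Prod.snd_mul, h5, one_mul] at hx2
      exact hx2
    suffices alt g t n = 1 by rw [this, mul_one]
    obtain ⟨k, rfl | rfl⟩ := Nat.even_or_odd' n
    · rw [dg_alt_even, r_eq_one] at h3
      have h4 : (k : ZMod m) = 0 := by
        cases t <;> simpa using h3
      rw [ZMod.natCast_eq_zero_iff] at h4
      rw [alt_even]
      ext
      · rw [Prod.pow_fst]
        exact hpow _ _ h4
      · have h5 := alt_map g (MonoidHom.snd H (DihedralGroup m)) t (2 * k)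
        simp only [MonoidHom.coe_snd, hg3] at h5
        rw [alt_even] at h5
        rw [h5, dg_alt_even]
        rw [← ZMod.natCast_eq_zero_iff] at h4
        rw [Prod.snd_one, r_eq_one]
        cases t <;> simp [h4]
    · rw [dg_alt_odd] at h3
      exact absurd h3 (sr_ne_one _)
  refine ⟨{
    F := K
    a := a'.codRestrict K hKa
    b := b'.codRestrict K hKb
    π := (MonoidHom.snd H (DihedralGroup m)).comp K.subtype
    comm := ?_
    inja := ?_
    injb := ?_
    ker := ?_
    πe := ?_
    πa := ?_
    πb := ?_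
    gen := ?_ }⟩
  · intro c
    apply Subtype.ext
    exact hcomm c
  · intro x y hxy
    apply hinja
    exact congrArg Subtype.val hxy
  · intro x y hxy
    apply hinjb
    exact congrArg Subtype.val hxy
  · rintro ⟨x, hx⟩ hx2
    obtain ⟨c, hc⟩ := hker x hx hx2
    exact ⟨c, Subtype.ext hc⟩
  · intro c
    show (a' (e c)).2 = 1
    rw [ha']
    exact chi_mem _ _ _ _ _ ⟨c, rfl⟩
  · intro x hx
    show (a' x).2 = _
    rw [ha']
    exact chi_not _ _ _ _ _ hx
  · intro x hx
    show (b' x).2 = _
    rw [hb']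
    exact chi_not _ _ _ _ _ hx
  · rw [eq_top_iff]
    rintro ⟨x, hx⟩ _
    induction hx using Subgroup.closure_induction with
    | mem x hx =>
      apply Subgroup.subset_closure
      rcases hx with ⟨z, rfl⟩ | ⟨z, rfl⟩
      · exact Or.inl ⟨z, rfl⟩
      · exact Or.inr ⟨z, rfl⟩
    | one => exact Subgroup.one_mem _
    | mul x y hx' hy' hx hy => exact Subgroup.mul_mem _ (hx trivial) (hy trivial)
    | inv x hx' ih => exact Subgroup.inv_mem _ (ih trivial)

end Pool.Agent.R790.Sep
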