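import Pool.Agent.R790.Sep.WS

/-! Weighted separators of amalgams and of cyclic hypergraphs. -/

set_option autoImplicit false

namespace Pool.Agent.R790.Sep

open Classical

section
variable {A B C G : Type} [Group A] [Group B] [Group C] [Group G]
  {α : C →* A} {β : C →* B} {i : A →* G} {j : B →* G} {T : G → Option Bool} {L : G → ℕ}

/-- the side `s` of the edge `g C` carries more than half of the weight -/
def Heavy {ι : Type} [Fintype ι] (T : G → Option Bool) (K : ι → Finset G) (ω : ι → ℕ) (g : G)
    (s : Bool) : Prop :=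
  ∑ n, ω n < 2 * ∑ n ∈ Finset.univ.filter (fun n => ∃ x ∈ K n, T (g⁻¹ * x) = some s), ω n

/-- total distance of the points on the side `s` -/
noncomputable def Mea {ι : Type} [Fintype ι] (T : G → Option Bool) (L : G → ℕ) (K : ι → Finset G)
    (g : G) (s : Bool) : ℕ :=
  ∑ n : ι, ∑ x ∈ (K n).filter (fun x => T (g⁻¹ * x) = some s), L (g⁻¹ * x)

theorem map_not_eq (o : Option Bool) (s : Bool) : (o.map not = some s) ↔ (o = some (!s)) := by
  rcases o with _ | _ | _ <;> cases s <;> simp

theorem Heavy_swap {ι : Type} [Fintype ι] (T : G → Option Bool) (K : ι → Finset G) (ω : ι → ℕ)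
    (g : G) (s : Bool) : Heavy (fun g => (T g).map not) K ω g s ↔ Heavy T K ω g (!s) := by
  unfold Heavy
  simp only [map_not_eq]

theorem Mea_swap {ι : Type} [Fintype ι] (T : G → Option Bool) (L : G → ℕ) (K : ι → Finset G)
    (g : G) (s : Bool) : Mea (fun g => (T g).map not) L K g s = Mea T L K g (!s) := by
  unfold Mea
  simp only [map_not_eq]

theorem not_both (h : AmStr α β i j T L) {KA : Set A → Prop} {KB : Set B → Prop}
    {ι : Type} [Fintype ι] (K : ι → Finset G) (ω : ι → ℕ)
    (hK : ∀ n, ∃ K', amK i j KA KB K' ∧ (K n : Set G) ⊆ K') (g : G)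
    (h1 : Heavy T K ω g true) (h2 : Heavy T K ω g false) : False := by
  unfold Heavy at h1 h2
  have h3 : Disjoint (Finset.univ.filter (fun n => ∃ x ∈ K n, T (g⁻¹ * x) = some true))
      (Finset.univ.filter (fun n => ∃ x ∈ K n, T (g⁻¹ * x) = some false)) := by
    rw [Finset.disjoint_left]
    intro n hn hn'
    simp only [Finset.mem_filter, Finset.mem_univ, true_and] at hn hn'
    obtain ⟨x, hx, hx'⟩ := hn
    obtain ⟨y, hy, hy'⟩ := hn'
    obtain ⟨K', hK1, hK2⟩ := hK n
    have h4 : T ((g * i 1)⁻¹ * y) = some false := by rw [map_one, mul_one]; exact hy'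
    rcases br_step h hK1 g (hK2 hy) (hK2 hx) h4 with h5 | ⟨u, hu⟩
    · rw [map_one, mul_one, hx'] at h5
      simp at h5
    · rw [hu, one_mul, inv_mul_cancel_left, h.T_Ci] at hx'
      simp at hx'
  have h4 := Finset.sum_union h3 (f := ω)
  have h5 : ∑ n ∈ (Finset.univ.filter (fun n => ∃ x ∈ K n, T (g⁻¹ * x) = some true)) ∪
      (Finset.univ.filter (fun n => ∃ x ∈ K n, T (g⁻¹ * x) = some false)), ω n ≤ ∑ n, ω n :=
    Finset.sum_le_sum_of_subset (Finset.subset_univ _)
  omega

theorem step_true (h : AmStr α β i j T L) {KA : Set A → Prop} {KB : Set B → Prop}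
    {ι : Type} [Fintype ι] (K : ι → Finset G) (ω : ι → ℕ)
    (hK : ∀ n, ∃ K', amK i j KA KB K' ∧ (K n : Set G) ⊆ K') (g : G)
    (h1 : Heavy T K ω g true) :
    (∀ a, ¬ Heavy T K ω (g * i a) false) ∨
      ∃ g', Heavy T K ω g' false ∧ Mea T L K g' false < Mea T L K g true := by
  by_cases hall : ∀ a, ¬ Heavy T K ω (g * i a) false
  · exact Or.inl hall
  · right
    push Not at hall
    obtain ⟨a, ha⟩ := hall
    have haC : a ∉ α.range := by
      rintro ⟨c, rfl⟩
      refine not_both h K ω hK g h1 ?_
      have : ∀ x, T ((g * i (α c))⁻¹ * x) = T (g⁻¹ * x) := by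
        intro x
        have := h.T_C c⁻¹ (g⁻¹ * x)
        rw [map_inv, map_inv] at this
        rw [← this]; congr 1; group
      unfold Heavy at ha ⊢
      simp only [this] at ha
      exact ha
    have hx : ∀ x, T ((g * i a)⁻¹ * x) = some false →
        T (g⁻¹ * x) = some true ∧ L (g⁻¹ * x) = L ((g * i a)⁻¹ * x) + 1 := by
      intro x hx
      have h2 := h.consA a ((g * i a)⁻¹ * x) haC (by rw [hx]; simp)
      have h3 : i a * ((g * i a)⁻¹ * x) = g⁻¹ * x := by group
      rw [h3] at h2
      exact h2
    refine ⟨g * i a, ha, ?_⟩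
    unfold Mea
    have hle : ∀ n : ι, ∑ x ∈ (K n).filter (fun x => T ((g * i a)⁻¹ * x) = some false),
        L ((g * i a)⁻¹ * x) + ((K n).filter (fun x => T ((g * i a)⁻¹ * x) = some false)).card ≤
        ∑ x ∈ (K n).filter (fun x => T (g⁻¹ * x) = some true), L (g⁻¹ * x) := by
      intro n
      rw [Finset.card_eq_sum_ones, ← Finset.sum_add_distrib]
      refine le_trans (le_of_eq (Finset.sum_congr rfl (fun x hx' => ?_)))
        (Finset.sum_le_sum_of_subset (f := fun x => L (g⁻¹ * x)) (fun x hx' => ?_))
      · rw [Finset.mem_filter] at hx'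
        exact (hx x hx'.2).2.symm
      · rw [Finset.mem_filter] at hx' ⊢
        exact ⟨hx'.1, (hx x hx'.2).1⟩
    have hex : ∃ n : ι, ∃ x ∈ K n, T ((g * i a)⁻¹ * x) = some false := by
      by_contra hcon
      unfold Heavy at ha
      have : ∑ n ∈ Finset.univ.filter (fun n => ∃ x ∈ K n, T ((g * i a)⁻¹ * x) = some false), ω n
          = 0 := by
        apply Finset.sum_eq_zero
        intro n hn
        exfalso
        simp only [Finset.mem_filter, Finset.mem_univ, true_and] at hn
        exact hcon ⟨n, hn⟩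
      omega
    obtain ⟨n0, x0, hx0, hx0'⟩ := hex
    apply Finset.sum_lt_sum
    · intro n _
      have := hle n
      omega
    · refine ⟨n0, Finset.mem_univ _, ?_⟩
      have h2 := hle n0
      have h3 : 0 < ((K n0).filter (fun x => T ((g * i a)⁻¹ * x) = some false)).card :=
        Finset.card_pos.2 ⟨x0, Finset.mem_filter.2 ⟨hx0, hx0'⟩⟩
      omega

theorem ws_amalgam (h : AmStr α β i j T L) [Finite C] {KA : Set A → Prop} {KB : Set B → Prop}
    (hKA : ∀ a K, KA K → KA ((fun x => a * x) '' K)) (hCA : KA (Set.range α))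
    (hKB : ∀ a K, KB K → KB ((fun x => a * x) '' K)) (hCB : KB (Set.range β)) {w : ℕ}
    (hwA : WS KA w) (hwB : WS KB w) (hC : Nat.card C ≤ w) : WS (amK i j KA KB) w := by
  intro ι _ K ω hK
  by_cases hlight : ∃ g, ∀ s, ¬ Heavy T K ω g s
  · obtain ⟨g, hg⟩ := hlight
    have : Fintype C := Fintype.ofFinite C
    have hCS : ∀ x, x ∉ Finset.univ.image (fun c => g * i (α c)) → T (g⁻¹ * x) ≠ none := by
      intro x hx hT
      obtain ⟨c, hc⟩ := h.T_none _ hT
      apply hx
      rw [Finset.mem_image]
      exact ⟨c, Finset.mem_univ _, by rw [← hc]; group⟩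
    refine ⟨Finset.univ.image (fun c => g * i (α c)), Option Bool, fun x => T (g⁻¹ * x), ?_, ?_, ?_⟩
    · refine Finset.card_image_le.trans ?_
      rw [Finset.card_univ, ← Nat.card_eq_fintype_card]
      exact hC
    · intro K' hK' x hx y hy hxS hyS
      have key : ∀ x ∈ K', ∀ y ∈ K', y ∉ Finset.univ.image (fun c => g * i (α c)) →
          T (g⁻¹ * x) = some false → T (g⁻¹ * y) = some false := by
        intro x hx y hy hyS hT
        have h4 : T ((g * i 1)⁻¹ * x) = some false := by rw [map_one, mul_one]; exact hT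
        rcases br_step h hK' g hx hy h4 with h5 | ⟨u, hu⟩
        · rw [map_one, mul_one] at h5; exact h5
        · exfalso
          apply hyS
          rw [Finset.mem_image]
          exact ⟨u, Finset.mem_univ _, by rw [hu, one_mul]⟩
      show T (g⁻¹ * x) = T (g⁻¹ * y)
      rcases h1 : T (g⁻¹ * x) with _ | _ | _
      · exact absurd h1 (hCS x hxS)
      · exact (key x hx y hy hyS h1).symm
      · rcases h2 : T (g⁻¹ * y) with _ | _ | _
        · exact absurd h2 (hCS y hyS)
        · rw [key y hy x hx hxS h2] at h1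
          simp at h1
        · rfl
    · intro k
      rcases k with _ | s
      · refine le_trans (le_of_eq ?_) (Nat.zero_le _)
        rw [Nat.mul_eq_zero]
        right
        apply Finset.sum_eq_zero
        intro n hn
        exfalso
        simp only [Finset.mem_filter, Finset.mem_univ, true_and] at hn
        obtain ⟨x, _, hx1, hx2⟩ := hn
        exact hCS x hx1 hx2
      · have h1 := hg s
        unfold Heavy at h1
        push Not at h1
        refine le_trans (Nat.mul_le_mul_left 2 (Finset.sum_le_sum_of_subset ?_)) h1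
        intro n hn
        simp only [Finset.mem_filter, Finset.mem_univ, true_and] at hn ⊢
        obtain ⟨x, hx, _, hx2⟩ := hn
        exact ⟨x, hx, hx2⟩
  · push Not at hlight
    have hK' : ∀ n, ∃ K', amK j i KB KA K' ∧ (K n : Set G) ⊆ K' := by
      intro n
      obtain ⟨K', h1, h2⟩ := hK n
      exact ⟨K', amK_swap.2 h1, h2⟩
    have main : ∀ (N : ℕ) (g : G) (s : Bool), Heavy T K ω g s → Mea T L K g s = N →
        ∃ (S : Finset G) (κ : Type) (c : G → κ), S.card ≤ w ∧
        (∀ K', amK i j KA KB K' → ∀ x ∈ K', ∀ y ∈ K', x ∉ S → y ∉ S → c x = c y) ∧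
        ∀ k : κ, 2 * ∑ n ∈ Finset.univ.filter (fun n => ∃ x ∈ K n, x ∉ S ∧ c x = k), ω n ≤
          ∑ n, ω n := by
      intro N
      induction N using Nat.strong_induction_on with
      | _ N ih =>
      intro g s hs hN
      cases s
      · have h1 := step_true h.swap K ω hK' g ((Heavy_swap T K ω g true).2 hs)
        rcases h1 with h1 | ⟨g', h2, h3⟩
        · have h2 := sink h.swap hKB hCB hwB K ω hK' g (by
            intro a
            have h3 := h1 a
            unfold Heavy at h3
            push Not at h3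
            exact h3)
          obtain ⟨S, κ, c, h3, h4, h5⟩ := h2
          exact ⟨S, κ, c, h3, fun K' hK'' => h4 K' (amK_swap.2 hK''), h5⟩
        · rw [Heavy_swap] at h2
          rw [Mea_swap, Mea_swap] at h3
          exact ih _ (by rw [← hN]; exact h3) g' true h2 rfl
      · have h1 := step_true h K ω hK g hs
        rcases h1 with h1 | ⟨g', h2, h3⟩
        · exact sink h hKA hCA hwA K ω hK g (by
            intro a
            have h3 := h1 a
            unfold Heavy at h3
            push Not at h3
            exact h3)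
        · exact ih _ (by rw [← hN]; exact h3) g' false h2 rfl
    obtain ⟨s, hs⟩ := hlight 1
    exact main _ 1 s hs rfl

end

/-- Hypergraphs arranged along a cycle. -/
theorem ws_cycle {V : Type} [Fintype V] (𝒦 : Set V → Prop) (pos : V → ℕ) (f : ℕ)
    (hf : ∀ t, (Finset.univ.filter (fun x => pos x = t)).card ≤ f)
    (hK0 : ∀ K', 𝒦 K' → ∀ x ∈ K', ∀ y ∈ K', pos x ≠ 0 → pos y ≠ 0 → pos y ≤ pos x + 1) :
    WS 𝒦 (3 * f) := by
  intro ι _ K ω hK
  let F : ℕ → ℕ := fun t =>
    ∑ n ∈ Finset.univ.filter (fun n => ∃ x ∈ K n, pos x ≠ 0 ∧ pos x ≤ t), ω n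
  let fib : ℕ → Finset V := fun t => Finset.univ.filter (fun x => pos x = t)
  have hfib : ∀ t x, x ∈ fib t ↔ pos x = t := by
    intro t x
    simp [fib]
  by_cases hall : ∀ t, 2 * F t ≤ ∑ n, ω n
  · refine ⟨fib 0, Unit, fun _ => (), ?_, ?_, ?_⟩
    · have := hf 0
      show (Finset.univ.filter (fun x => pos x = 0)).card ≤ _
      omega
    · intros; rfl
    · intro k
      refine le_trans (Nat.mul_le_mul_left 2 (Finset.sum_le_sum_of_subset ?_))
        (hall (Finset.univ.sup pos))
      intro n hn
      simp only [Finset.mem_filter, Finset.mem_univ, true_and] at hn ⊢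
      obtain ⟨x, hx, hx1, _⟩ := hn
      rw [hfib] at hx1
      exact ⟨x, hx, hx1, Finset.le_sup (f := pos) (Finset.mem_univ x)⟩
  · push Not at hall
    let t := Nat.find hall
    have ht : ∑ n, ω n < 2 * F t := Nat.find_spec hall
    have ht0 : t ≠ 0 := by
      intro h0
      rw [h0] at ht
      have : F 0 = 0 := by
        apply Finset.sum_eq_zero
        intro n hn
        exfalso
        simp only [Finset.mem_filter, Finset.mem_univ, true_and] at hn
        obtain ⟨x, _, h1, h2⟩ := hn
        omega
      omega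
    have ht1 : 2 * F (t - 1) ≤ ∑ n, ω n := by
      have := Nat.find_min hall (m := t - 1) (show t - 1 < t by omega)
      omega
    refine ⟨fib 0 ∪ (fib t ∪ fib (t + 1)), Bool, fun x => decide (pos x < t), ?_, ?_, ?_⟩
    · have h1 := hf 0
      have h2 := hf t
      have h3 := hf (t + 1)
      have h4 := Finset.card_union_le (fib 0) (fib t ∪ fib (t + 1))
      have h5 := Finset.card_union_le (fib t) (fib (t + 1))
      have h6 : (fib 0).card ≤ f := h1
      have h7 : (fib t).card ≤ f := h2
      have h8 : (fib (t + 1)).card ≤ f := h3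
      omega
    · intro K' hK' x hx y hy hxS hyS
      simp only [Finset.mem_union, hfib, not_or] at hxS hyS
      have h1 := hK0 K' hK' x hx y hy hxS.1 hyS.1
      have h2 := hK0 K' hK' y hy x hx hyS.1 hxS.1
      simp only [decide_eq_decide]
      omega
    · intro k
      cases k
      · -- large positions
        have hdis : Disjoint (Finset.univ.filter (fun n => ∃ x ∈ K n, pos x ≠ 0 ∧ pos x ≤ t))
            (Finset.univ.filter (fun n => ∃ x ∈ K n, x ∉ fib 0 ∪ (fib t ∪ fib (t + 1)) ∧
              decide (pos x < t) = false)) := by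
          rw [Finset.disjoint_left]
          intro n hn hn'
          simp only [Finset.mem_filter, Finset.mem_univ, true_and] at hn hn'
          obtain ⟨x, hx, hx1, hx2⟩ := hn
          obtain ⟨y, hy, hy1, hy2⟩ := hn'
          simp only [Finset.mem_union, hfib, not_or] at hy1
          simp only [decide_eq_false_iff_not, not_lt] at hy2
          obtain ⟨K', h1, h2⟩ := hK n
          have := hK0 K' h1 x (h2 hx) y (h2 hy) hx1 hy1.1
          omega
        have h4 := Finset.sum_union hdis (f := ω)
        have h5 : ∑ n ∈ (Finset.univ.filter (fun n => ∃ x ∈ K n, pos x ≠ 0 ∧ pos x ≤ t)) ∪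
            (Finset.univ.filter (fun n => ∃ x ∈ K n, x ∉ fib 0 ∪ (fib t ∪ fib (t + 1)) ∧
              decide (pos x < t) = false)), ω n ≤ ∑ n, ω n :=
          Finset.sum_le_sum_of_subset (Finset.subset_univ _)
        have h6 : F t = ∑ n ∈ Finset.univ.filter (fun n => ∃ x ∈ K n, pos x ≠ 0 ∧ pos x ≤ t),
          ω n := rfl
        have h7 : ∑ n ∈ Finset.univ.filter (fun n => ∃ x ∈ K n, x ∉ fib 0 ∪ (fib t ∪ fib (t + 1)) ∧
              decide (pos x < t) = false), ω n ≤ ∑ n, ω n - F t := by omega
        have h8 : 2 * ∑ n ∈ Finset.univ.filter (fun n => ∃ x ∈ K n,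
            x ∉ fib 0 ∪ (fib t ∪ fib (t + 1)) ∧ decide (pos x < t) = false), ω n ≤ ∑ n, ω n := by
          omega
        convert h8
      · refine le_trans (Nat.mul_le_mul_left 2 (Finset.sum_le_sum_of_subset ?_)) ht1
        intro n hn
        simp only [Finset.mem_filter, Finset.mem_univ, true_and] at hn ⊢
        obtain ⟨x, hx, hx1, hx2⟩ := hn
        simp only [Finset.mem_union, hfib, not_or] at hx1
        simp only [decide_eq_true_eq] at hx2
        exact ⟨x, hx, hx1.1, by omega⟩

/-- small vertex sets -/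
theorem ws_small {V : Type} [Fintype V] (𝒦 : Set V → Prop) (w : ℕ) (hw : Fintype.card V ≤ w) :
    WS 𝒦 w := by
  intro ι _ K ω hK
  refine ⟨Finset.univ, Unit, fun _ => (), ?_, ?_, ?_⟩
  · rw [Finset.card_univ]; exact hw
  · intros; rfl
  · intro k
    refine le_trans (le_of_eq ?_) (Nat.zero_le _)
    rw [Nat.mul_eq_zero]
    right
    apply Finset.sum_eq_zero
    intro n hn
    exfalso
    simp only [Finset.mem_filter, Finset.mem_univ, true_and] at hn
    obtain ⟨x, _, h1, _⟩ := hn
    exact h1 trivial

end Pool.Agent.R790.Sep
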