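import Pool.Agent.R790.Sep.Fg
import Pool.Agent.R790.Sep.WS2

/-! Dihedral subgroups and positions in the finite groups. -/

set_option autoImplicit false

namespace Pool.Agent.R790.Sep

open Classical

/-- residues killed by `k` -/
def tor (m k : ℕ) : AddSubgroup (ZMod m) where
  carrier := {i | (k : ZMod m) * i = 0}
  zero_mem' := by simp
  add_mem' := by
    intro a b ha hb
    simp only [Set.mem_ofPred_eq] at ha hb ⊢
    rw [mul_add, ha, hb, add_zero]
  neg_mem' := by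
    intro a ha
    simp only [Set.mem_ofPred_eq] at ha ⊢
    rw [mul_neg, ha, neg_zero]

theorem mem_tor {m k : ℕ} (i : ZMod m) : i ∈ tor m k ↔ (k : ZMod m) * i = 0 := Iff.rfl

/-- dihedral subgroups -/
def DK (m k : ℕ) : Subgroup (DihedralGroup m) where
  carrier := {x | ∃ i ∈ tor m k, x = .r i ∨ x = .sr i}
  one_mem' := ⟨0, (tor m k).zero_mem, Or.inl DihedralGroup.one_def⟩
  mul_mem' := by
    rintro _ _ ⟨i, hi, rfl | rfl⟩ ⟨j, hj, rfl | rfl⟩
    · exact ⟨_, (tor m k).add_mem hi hj, Or.inl (DihedralGroup.r_mul_r i j)⟩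
    · exact ⟨_, (tor m k).sub_mem hj hi, Or.inr (DihedralGroup.r_mul_sr i j)⟩
    · exact ⟨_, (tor m k).add_mem hi hj, Or.inr (DihedralGroup.sr_mul_r i j)⟩
    · exact ⟨_, (tor m k).sub_mem hj hi, Or.inl (DihedralGroup.sr_mul_sr i j)⟩
  inv_mem' := by
    rintro _ ⟨i, hi, rfl | rfl⟩
    · exact ⟨_, (tor m k).neg_mem hi, Or.inl (by rw [DihedralGroup.inv_r])⟩
    · exact ⟨_, hi, Or.inr (by rw [DihedralGroup.inv_sr])⟩

theorem mem_DK {m k : ℕ} (x : DihedralGroup m) : x ∈ DK m k ↔ ∃ i ∈ tor m k, x = .r i ∨ x = .sr i :=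
  Iff.rfl

theorem r_mem_DK {m k : ℕ} (i : ZMod m) : (.r i : DihedralGroup m) ∈ DK m k ↔ i ∈ tor m k := by
  rw [mem_DK]
  constructor
  · rintro ⟨j, hj, h | h⟩
    · rw [DihedralGroup.r.inj h]; exact hj
    · cases h
  · intro h; exact ⟨i, h, Or.inl rfl⟩

theorem sr_mem_DK {m k : ℕ} (i : ZMod m) : (.sr i : DihedralGroup m) ∈ DK m k ↔ i ∈ tor m k := by
  rw [mem_DK]
  constructor
  · rintro ⟨j, hj, h | h⟩
    · cases h
    · rw [DihedralGroup.sr.inj h]; exact hj
  · intro h; exact ⟨i, h, Or.inr rfl⟩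

section arith

variable {m : ℕ} (hm : 0 < m)
include hm

theorem two_mul_eq_zero_iff (y : ZMod (4 * m)) (hy : 2 * y = 0) : y = 0 ∨ y = ((2 * m : ℕ) : ZMod (4 * m)) := by
  have : NeZero (4 * m) := ⟨by omega⟩
  have h1 : ((2 * y.val : ℕ) : ZMod (4 * m)) = 0 := by
    push_cast
    rw [ZMod.natCast_zmod_val]
    exact hy
  rw [ZMod.natCast_eq_zero_iff] at h1
  have h2 : 2 * m ∣ y.val := by
    obtain ⟨k, hk⟩ := h1
    refine ⟨k, ?_⟩
    apply Nat.eq_of_mul_eq_mul_left (show 0 < 2 by norm_num)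
    rw [hk]; ring
  obtain ⟨k, hk⟩ := h2
  have h3 : y.val < 4 * m := ZMod.val_lt y
  have h4 : k < 2 := by
    by_contra hcon
    push Not at hcon
    have : 2 * m * 2 ≤ 2 * m * k := Nat.mul_le_mul_left _ hcon
    omega
  interval_cases k
  · left
    rw [← ZMod.natCast_zmod_val y, hk]
    simp
  · right
    rw [← ZMod.natCast_zmod_val y, hk, mul_one]

theorem two_m_ne : ((2 * m : ℕ) : ZMod (4 * m)) ≠ 0 := by
  intro h
  rw [ZMod.natCast_eq_zero_iff] at h
  have := Nat.le_of_dvd (by omega) h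
  omega

theorem four_iff (i : ZMod (4 * m)) : i ∈ tor (4 * m) 4 ↔ m ∣ i.val := by
  have : NeZero (4 * m) := ⟨by omega⟩
  rw [mem_tor]
  have h1 : (((4 : ℕ) : ZMod (4 * m)) * i = 0) ↔ ((4 * i.val : ℕ) : ZMod (4 * m)) = 0 := by
    push_cast
    rw [ZMod.natCast_zmod_val]
  rw [h1, ZMod.natCast_eq_zero_iff]
  constructor
  · intro h
    exact Nat.dvd_of_mul_dvd_mul_left (by norm_num) h
  · intro h
    exact Nat.mul_dvd_mul_left 4 h

theorem tor_card : ∃ T : Finset (ZMod (4 * m)), T.card ≤ 4 ∧ ∀ i ∈ tor (4 * m) 4, i ∈ T := by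
  have : NeZero (4 * m) := ⟨by omega⟩
  refine ⟨(Finset.range 4).image (fun j => ((m * j : ℕ) : ZMod (4 * m))), ?_, ?_⟩
  · exact Finset.card_image_le.trans (by simp)
  · intro i hi
    rw [four_iff hm] at hi
    obtain ⟨k, hk⟩ := hi
    rw [Finset.mem_image]
    refine ⟨k, ?_, ?_⟩
    · rw [Finset.mem_range]
      have h3 : i.val < 4 * m := ZMod.val_lt i
      by_contra hcon
      push Not at hcon
      have : m * 4 ≤ m * k := Nat.mul_le_mul_left _ hcon
      omega
    · rw [← hk, ZMod.natCast_zmod_val]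

/-- reduction -/
def red (m : ℕ) : ZMod (4 * m) →+* ZMod (2 * m) :=
  ZMod.castHom (show 2 * m ∣ 4 * m from ⟨2, by ring⟩) (ZMod (2 * m))

omit hm in
theorem red_natCast (k : ℕ) : red m (k : ZMod (4 * m)) = (k : ZMod (2 * m)) := map_natCast _ _

theorem red_tor (i : ZMod (4 * m)) : i ∈ tor (4 * m) 4 ↔ 2 * red m i = 0 := by
  have : NeZero (4 * m) := ⟨by omega⟩
  rw [four_iff hm]
  have h1 : red m i = (i.val : ZMod (2 * m)) := by
    conv_lhs => rw [← ZMod.natCast_zmod_val i]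
    exact red_natCast _
  rw [h1]
  have h2 : (2 * (i.val : ZMod (2 * m)) = 0) ↔ ((2 * i.val : ℕ) : ZMod (2 * m)) = 0 := by
    push_cast
    rfl
  rw [h2, ZMod.natCast_eq_zero_iff]
  constructor
  · intro h
    exact Nat.mul_dvd_mul_left 2 h
  · intro h
    exact Nat.dvd_of_mul_dvd_mul_left (by norm_num) h

omit hm in
theorem parity (x y : ZMod (2 * m)) : 2 * x ≠ 1 - 2 * y := by
  intro h
  have h1 := congrArg (ZMod.castHom (show 2 ∣ 2 * m from ⟨m, rfl⟩) (ZMod 2)) h
  simp only [map_mul, map_sub, map_one, map_ofNat] at h1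
  have h2 : (2 : ZMod 2) = 0 := rfl
  rw [h2, zero_mul, zero_mul, sub_zero] at h1
  exact absurd h1 (by decide)

end arith

/-- position of an element of the dihedral group along the cycle -/
def posD (m : ℕ) : DihedralGroup (4 * m) → ZMod (2 * m)
  | .r k => 2 * red m k
  | .sr k => 1 - 2 * red m k

theorem posD_fib {m : ℕ} (hm : 0 < m) (x y : DihedralGroup (4 * m)) (h : posD m x = posD m y) :
    ∃ i ∈ tor (4 * m) 4, y = x * .r i := by
  rcases x with k | k <;> rcases y with l | l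
  · refine ⟨l - k, ?_, ?_⟩
    · rw [red_tor hm, map_sub, mul_sub]
      exact sub_eq_zero.2 h.symm
    · rw [DihedralGroup.r_mul_r]; congr 1; ring
  · exact absurd h (parity _ _)
  · exact absurd h.symm (parity _ _)
  · refine ⟨l - k, ?_, ?_⟩
    · rw [red_tor hm, map_sub, mul_sub]
      have h1 : (1 : ZMod (2 * m)) - 2 * red m k = 1 - 2 * red m l := h
      exact sub_eq_zero.2 (sub_right_injective h1).symm
    · rw [DihedralGroup.sr_mul_r]; congr 1; ring

theorem posD_K8 {m : ℕ} (hm : 0 < m) (g : DihedralGroup (4 * m)) :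
    ∃ t, ∀ x ∈ DK (4 * m) 4, posD m (g * x) = t ∨ posD m (g * x) = t + 1 := by
  rcases g with k | k
  · refine ⟨2 * red m k, ?_⟩
    rintro _ ⟨i, hi, rfl | rfl⟩
    · rw [red_tor hm] at hi
      left
      rw [DihedralGroup.r_mul_r]
      show 2 * red m (k + i) = _
      rw [map_add, mul_add, hi, add_zero]
    · rw [red_tor hm] at hi
      right
      rw [DihedralGroup.r_mul_sr]
      show 1 - 2 * red m (i - k) = _
      rw [map_sub, mul_sub, hi]; ring
  · refine ⟨-(2 * red m k), ?_⟩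
    rintro _ ⟨i, hi, rfl | rfl⟩
    · rw [red_tor hm] at hi
      right
      rw [DihedralGroup.sr_mul_r]
      show 1 - 2 * red m (k + i) = _
      rw [map_add, mul_add, hi]; ring
    · rw [red_tor hm] at hi
      left
      rw [DihedralGroup.sr_mul_sr]
      show 2 * red m (i - k) = _
      rw [map_sub, mul_sub, hi]; ring

theorem posD_Q {m : ℕ} (g : DihedralGroup (4 * m)) :
    ∃ t, ∀ x, x = 1 ∨ x = dg (4 * m) false → posD m (g * x) = t ∨ posD m (g * x) = t + 1 := by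
  rcases g with k | k
  · refine ⟨2 * red m k - 1, ?_⟩
    rintro _ (rfl | rfl)
    · right
      rw [mul_one]
      show 2 * red m k = _
      ring
    · left
      show posD m (.r k * .sr 1) = _
      rw [DihedralGroup.r_mul_sr]
      show 1 - 2 * red m (1 - k) = _
      rw [map_sub, map_one]; ring
  · refine ⟨1 - 2 * red m k, ?_⟩
    rintro _ (rfl | rfl)
    · left
      rw [mul_one]
      rfl
    · right
      show posD m (.sr k * .sr 1) = _
      rw [DihedralGroup.sr_mul_sr]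
      show 2 * red m (1 - k) = _
      rw [map_sub, map_one]; ring

theorem val_succ {n : ℕ} (hn : 2 ≤ n) (t : ZMod n) : (t + 1).val = t.val + 1 ∨ (t + 1).val = 0 := by
  have : NeZero n := ⟨by omega⟩
  have h3 : t + 1 = ((t.val + 1 : ℕ) : ZMod n) := by
    push_cast
    rw [ZMod.natCast_zmod_val]
  by_cases h : t.val + 1 < n
  · left
    rw [h3, ZMod.val_natCast_of_lt h]
  · right
    have h1 : t.val < n := ZMod.val_lt t
    have h2 : t.val + 1 = n := by omega
    rw [h3, h2, ZMod.natCast_self, ZMod.val_zero]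

namespace FinAm

variable {E P Q : Type} [Group E] [Group P] [Group Q] {e : E →* P} {f : E →* Q} {m : ℕ}

/-- preimages of the dihedral subgroups -/
def sub {n : ℕ} (Fm : FinAm e f n) (k : ℕ) : Subgroup Fm.F := (DK n k).comap Fm.π

theorem π_surj {n : ℕ} (Fm : FinAm e f n) (he2 : e.range.index = 2) (hf2 : f.range.index = 2)
    (x : DihedralGroup n) : ∃ y, Fm.π y = x := by
  obtain ⟨p0, hp0⟩ := exists_not_mem e he2
  obtain ⟨q0, hq0⟩ := exists_not_mem f hf2
  have h0 := Fm.πa p0 hp0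
  have h1 := Fm.πb q0 hq0
  have h2 : ∀ k : ℤ, Fm.π ((Fm.a p0 * Fm.b q0) ^ k) = .r (k : ZMod n) := by
    intro k
    rw [map_zpow, map_mul, h0, h1]
    simp [dg, DihedralGroup.sr_mul_sr]
  rcases x with k | k
  · obtain ⟨l, rfl⟩ := ZMod.intCast_surjective k
    exact ⟨_, h2 l⟩
  · obtain ⟨l, hl⟩ := ZMod.intCast_surjective (-k)
    refine ⟨(Fm.a p0 * Fm.b q0) ^ l * Fm.a p0, ?_⟩
    rw [map_mul, h2, h0]
    simp [dg, DihedralGroup.r_mul_sr, hl]

theorem range_a {n : ℕ} (Fm : FinAm e f n) (he2 : e.range.index = 2) :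
    Fm.a.range = Fm.sub 1 := by
  obtain ⟨p0, hp0⟩ := exists_not_mem e he2
  ext x
  show x ∈ Fm.a.range ↔ Fm.π x ∈ DK n 1
  constructor
  · rintro ⟨y, rfl⟩
    by_cases hy : y ∈ e.range
    · obtain ⟨c, rfl⟩ := hy
      rw [Fm.πe]
      exact one_mem _
    · rw [Fm.πa y hy]
      exact ⟨0, by rw [mem_tor]; simp, Or.inr rfl⟩
  · rintro ⟨i, hi, h | h⟩
    · rw [mem_tor, Nat.cast_one, one_mul] at hi
      rw [hi, ← DihedralGroup.one_def] at h
      obtain ⟨c, hc⟩ := Fm.ker x h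
      exact ⟨e c, hc.symm⟩
    · rw [mem_tor, Nat.cast_one, one_mul] at hi
      rw [hi] at h
      have h1 : Fm.π (x * (Fm.a p0)⁻¹) = 1 := by
        rw [map_mul, map_inv, h, Fm.πa p0 hp0]
        exact mul_inv_cancel _
      obtain ⟨c, hc⟩ := Fm.ker _ h1
      refine ⟨e c * p0, ?_⟩
      rw [map_mul, ← hc, inv_mul_cancel_right]

theorem sub_index {m : ℕ} (hm : 0 < m) (Fm : FinAm e f (4 * m)) (he2 : e.range.index = 2)
    (hf2 : f.range.index = 2) (k : ℕ) (hk : k = 1 ∨ k = 2) :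
    (((Fm.sub k).subgroupOf (Fm.sub (2 * k)))).index = 2 := by
  -- rotation generating the larger group
  have hw : ∃ w : ZMod (4 * m), ((2 * k : ℕ) : ZMod (4 * m)) * w = 0 ∧
      (k : ZMod (4 * m)) * w = ((2 * m : ℕ) : ZMod (4 * m)) := by
    rcases hk with rfl | rfl
    · refine ⟨((2 * m : ℕ) : ZMod (4 * m)), ?_, by simp⟩
      rw [← Nat.cast_mul, ZMod.natCast_eq_zero_iff]
      exact ⟨1, by ring⟩
    · refine ⟨((m : ℕ) : ZMod (4 * m)), ?_, by push_cast; ring⟩
      rw [← Nat.cast_mul, ZMod.natCast_eq_zero_iff]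
  obtain ⟨w, hw1, hw2⟩ := hw
  obtain ⟨y, hy⟩ := Fm.π_surj he2 hf2 (.r w)
  rw [Subgroup.index_eq_two_iff]
  refine ⟨⟨y, ?_⟩, ?_⟩
  · show Fm.π y ∈ DK (4 * m) (2 * k)
    rw [hy, r_mem_DK]
    exact hw1
  · rintro ⟨b, hb⟩
    rw [Subgroup.mem_subgroupOf, Subgroup.mem_subgroupOf]
    show Xor (Fm.π (b * y) ∈ DK (4 * m) k) (Fm.π b ∈ DK (4 * m) k)
    rw [map_mul, hy]
    have key : ∀ i : ZMod (4 * m), i ∈ tor (4 * m) (2 * k) →
        Xor (i + w ∈ tor (4 * m) k) (i ∈ tor (4 * m) k) := by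
      intro i hi
      rw [mem_tor] at hi
      rw [mem_tor, mem_tor, mul_add, hw2]
      have h2 : 2 * ((k : ZMod (4 * m)) * i) = 0 := by
        rw [← hi]; push_cast; ring
      rcases two_mul_eq_zero_iff hm _ h2 with h3 | h3
      · right
        refine ⟨h3, ?_⟩
        rw [h3, zero_add]
        exact two_m_ne hm
      · left
        rw [h3]
        refine ⟨?_, two_m_ne hm⟩
        rw [← Nat.cast_add, ZMod.natCast_eq_zero_iff]
        exact ⟨1, by ring⟩
    have hb' : Fm.π b ∈ DK (4 * m) (2 * k) := hb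
    rcases hb2 : Fm.π b with i | i
    · rw [hb2, r_mem_DK] at hb'
      rw [DihedralGroup.r_mul_r, r_mem_DK, r_mem_DK]
      exact key i hb'
    · rw [hb2, sr_mem_DK] at hb'
      rw [DihedralGroup.sr_mul_r, sr_mem_DK, sr_mem_DK]
      exact key i hb'

/-- hyperedges of the finite group -/
def KF {n : ℕ} (Fm : FinAm e f n) (K : Set Fm.F) : Prop :=
  ∃ g : Fm.F, (∀ x ∈ K, ∃ y, x = g * Fm.b y) ∨ (∀ x ∈ K, ∃ y ∈ Fm.sub 4, x = g * y)

theorem KF_left {n : ℕ} (Fm : FinAm e f n) (a : Fm.F) (K : Set Fm.F) (hK : Fm.KF K) :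
    Fm.KF ((fun x => a * x) '' K) := by
  obtain ⟨g, h | h⟩ := hK
  · refine ⟨a * g, Or.inl ?_⟩
    rintro _ ⟨x, hx, rfl⟩
    obtain ⟨y, rfl⟩ := h x hx
    exact ⟨y, by simp [mul_assoc]⟩
  · refine ⟨a * g, Or.inr ?_⟩
    rintro _ ⟨x, hx, rfl⟩
    obtain ⟨y, hy, rfl⟩ := h x hx
    exact ⟨y, hy, by simp [mul_assoc]⟩

theorem KF_sub {n : ℕ} (Fm : FinAm e f n) (K K' : Set Fm.F) (h : K ⊆ K') (hK : Fm.KF K') :
    Fm.KF K := by
  obtain ⟨g, h1 | h1⟩ := hK
  · exact ⟨g, Or.inl fun x hx => h1 x (h hx)⟩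
  · exact ⟨g, Or.inr fun x hx => h1 x (h hx)⟩

/-- position in the finite group -/
noncomputable def pos {m : ℕ} (Fm : FinAm e f (4 * m)) (x : Fm.F) : ℕ := (posD m (Fm.π x)).val

theorem pos_fib {m : ℕ} (hm : 0 < m) (Fm : FinAm e f (4 * m)) [Fintype Fm.F] [Finite E] (t : ℕ) :
    (Finset.univ.filter (fun x => Fm.pos x = t)).card ≤ 4 * Nat.card E := by
  have : NeZero (2 * m) := ⟨by omega⟩
  have : Fintype E := Fintype.ofFinite E
  have h1 := Finset.card_le_mul_card_image (f := Fm.π)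
    (Finset.univ.filter (fun x => Fm.pos x = t)) (Nat.card E) (by
      intro d hd
      rw [Finset.mem_image] at hd
      obtain ⟨x1, _, rfl⟩ := hd
      rw [Nat.card_eq_fintype_card, ← Finset.card_univ]
      refine le_trans (Finset.card_le_card (t := Finset.univ.image (fun c => Fm.a (e c) * x1)) ?_)
        Finset.card_image_le
      intro x hx
      rw [Finset.mem_filter] at hx
      have h2 : Fm.π (x * x1⁻¹) = 1 := by rw [map_mul, map_inv, hx.2, mul_inv_cancel]
      obtain ⟨c, hc⟩ := Fm.ker _ h2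
      rw [Finset.mem_image]
      exact ⟨c, Finset.mem_univ _, by rw [← hc, inv_mul_cancel_right]⟩)
  have h2 : ((Finset.univ.filter (fun x => Fm.pos x = t)).image Fm.π).card ≤ 4 := by
    rcases Finset.eq_empty_or_nonempty (Finset.univ.filter (fun x => Fm.pos x = t)) with h | h
    · rw [h]; simp
    · obtain ⟨x0, hx0⟩ := h
      obtain ⟨T, hT1, hT2⟩ := tor_card hm
      refine le_trans (Finset.card_le_card (t := T.image (fun i => Fm.π x0 * .r i)) ?_)
        (Finset.card_image_le.trans hT1)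
      intro d hd
      rw [Finset.mem_image] at hd
      obtain ⟨x, hx, rfl⟩ := hd
      rw [Finset.mem_filter] at hx hx0
      have h3 : posD m (Fm.π x0) = posD m (Fm.π x) := by
        apply ZMod.val_injective
        exact hx0.2.trans hx.2.symm
      obtain ⟨i, hi, h4⟩ := posD_fib hm _ _ h3
      rw [Finset.mem_image]
      exact ⟨i, hT2 i hi, h4.symm⟩
  calc _ ≤ Nat.card E * _ := h1
    _ ≤ Nat.card E * 4 := Nat.mul_le_mul_left _ h2
    _ = _ := by ring

theorem ws_KF {m : ℕ} (hm : 0 < m) (Fm : FinAm e f (4 * m)) [Finite E] :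
    WS Fm.KF (12 * Nat.card E) := by
  have : NeZero (2 * m) := ⟨by omega⟩
  have : Fintype Fm.F := Fintype.ofFinite Fm.F
  have h1 := ws_cycle (Fm.KF) Fm.pos (4 * Nat.card E) (by
    intro t
    convert Fm.pos_fib hm t) (by
    intro K' hK' x hx y hy hx0 hy0
    have h2 : ∃ t, ∀ x ∈ K', posD m (Fm.π x) = t ∨ posD m (Fm.π x) = t + 1 := by
      obtain ⟨g, h | h⟩ := hK'
      · obtain ⟨t, ht⟩ := posD_Q (m := m) (Fm.π g)
        refine ⟨t, ?_⟩
        intro x hx
        obtain ⟨y, rfl⟩ := h x hx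
        rw [map_mul]
        apply ht
        by_cases hy : y ∈ f.range
        · left
          obtain ⟨c, rfl⟩ := hy
          rw [← Fm.comm, Fm.πe]
        · right
          exact Fm.πb y hy
      · obtain ⟨t, ht⟩ := posD_K8 hm (Fm.π g)
        refine ⟨t, ?_⟩
        intro x hx
        obtain ⟨y, hy, rfl⟩ := h x hx
        rw [map_mul]
        exact ht _ hy
    obtain ⟨t, ht⟩ := h2
    have h3 := val_succ (show 2 ≤ 2 * m by omega) t
    have hxp : Fm.pos x = (posD m (Fm.π x)).val := rfl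
    have hyp : Fm.pos y = (posD m (Fm.π y)).val := rfl
    rcases ht x hx with h4 | h4 <;> rcases ht y hy with h5 | h5 <;> rw [h4] at hxp <;>
      rw [h5] at hyp <;> omega)
  have h2 : 3 * (4 * Nat.card E) = 12 * Nat.card E := by ring
  rw [h2] at h1
  exact h1

end FinAm

end Pool.Agent.R790.Sep
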