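import Pool.Agent.R790.Sep.St

/-! The limit group. -/

set_option autoImplicit false

namespace Pool.Agent.R790.Sep

open Classical

/-- the group of order two -/
abbrev Z2 : Type := Multiplicative (ZMod 2)

theorem card_Z2 : Nat.card Z2 = 2 := by
  rw [Nat.card_eq_fintype_card]
  rfl

/-- the generator of the group of order two -/
def z2 : Z2 := Multiplicative.ofAdd 1

/-- The first stage. -/
noncomputable def initSt : St where
  X := Z2 × Z2
  Y := Z2
  E := Unit
  P := Z2
  R := Z2 × Z2
  Q := Z2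
  e := 1
  p := MonoidHom.inl Z2 Z2
  r := MonoidHom.id _
  f := 1
  q := MonoidHom.id _
  ie := fun _ _ _ => Subsingleton.elim _ _
  ip := by
    intro x y h
    exact (Prod.mk.inj h).1
  ir := fun _ _ h => h
  jf := fun _ _ _ => Subsingleton.elim _ _
  iq := fun _ _ h => h
  e2 := by
    have h := Subgroup.card_mul_index (1 : Unit →* Z2).range
    rw [card_Z2, MonoidHom.range_one] at h
    rw [MonoidHom.range_one]
    simp
  p2 := by
    have h := Subgroup.card_mul_index (MonoidHom.inl Z2 Z2).range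
    have h1 : Nat.card (MonoidHom.inl Z2 Z2).range = Nat.card Z2 := by
      exact (Nat.card_congr (MonoidHom.ofInjective (f := MonoidHom.inl Z2 Z2) (by
        intro x y h
        exact (Prod.mk.inj h).1)).toEquiv).symm
    rw [h1, Nat.card_prod, card_Z2] at h
    omega
  f2 := by
    have h := Subgroup.card_mul_index (1 : Unit →* Z2).range
    rw [card_Z2, MonoidHom.range_one] at h
    rw [MonoidHom.range_one]
    simp
  KX := fun _ => True
  KY := fun _ => True
  lX := fun _ _ _ => trivial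
  lY := fun _ _ _ => trivial
  sX := fun _ _ _ _ => trivial
  sY := fun _ _ _ _ => trivial
  rX := trivial
  qY := trivial
  wX := ws_small _ _ (by
    rw [← Nat.card_eq_fintype_card, Nat.card_prod, card_Z2]
    simp)
  wY := ws_small _ _ (by
    rw [← Nat.card_eq_fintype_card, card_Z2]
    simp)
  s := ![Sum.inl (z2, 1), Sum.inl (1, z2), Sum.inr z2]
  hsX := fun _ _ _ => trivial
  hsY := fun _ _ _ => trivial

theorem Z2_cases (x : Z2) : x = 1 ∨ x = z2 := by
  revert x
  decide

theorem init_gen : Function.Surjective (FreeGroup.lift initSt.g) := by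
  have h0 : ∀ k, initSt.g k ∈ (FreeGroup.lift initSt.g).range := by
    intro k
    exact ⟨FreeGroup.of k, by simp⟩
  have h1 : initSt.i ((z2, 1) : Z2 × Z2) ∈ (FreeGroup.lift initSt.g).range := h0 0
  have h2 : initSt.i ((1, z2) : Z2 × Z2) ∈ (FreeGroup.lift initSt.g).range := h0 1
  have h3 : initSt.j (z2 : Z2) ∈ (FreeGroup.lift initSt.g).range := h0 2
  have h4 : ∀ x : Z2 × Z2, initSt.i x ∈ (FreeGroup.lift initSt.g).range := by
    have h5 : ∀ x y : Z2 × Z2, initSt.i (x * y) = initSt.i x * initSt.i y :=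
      fun x y => map_mul initSt.i x y
    have h6 : initSt.i (1 : Z2 × Z2) = 1 := map_one initSt.i
    rintro ⟨x, y⟩
    rcases Z2_cases x with rfl | rfl <;> rcases Z2_cases y with rfl | rfl
    · rw [show ((1 : Z2), (1 : Z2)) = 1 from rfl, h6]; exact one_mem _
    · exact h2
    · exact h1
    · have : ((z2, z2) : Z2 × Z2) = (z2, 1) * (1, z2) := by simp
      rw [this, h5]
      exact mul_mem h1 h2
  have h7 : ∀ x : Z2, initSt.j x ∈ (FreeGroup.lift initSt.g).range := by
    have h6 : initSt.j (1 : Z2) = 1 := map_one initSt.j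
    intro x
    rcases Z2_cases x with rfl | rfl
    · rw [h6]; exact one_mem _
    · exact h3
  intro x
  exact am_all initSt.am (MonoidHom.id _) (FreeGroup.lift initSt.g).range h4 h7 x

/-- the sequence of stages -/
noncomputable def seqSt (M : ℕ → ℕ) : ℕ → St
  | 0 => initSt
  | j + 1 => ((seqSt M j).exists_next (M j)).choose

/-- the maps between consecutive stages -/
noncomputable def seqθ (M : ℕ → ℕ) (j : ℕ) : (seqSt M j).G →* (seqSt M (j + 1)).G :=
  ((seqSt M j).exists_next (M j)).choose_spec.choose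

theorem seq_spec (M : ℕ → ℕ) (j : ℕ) : ∃ (n : ℕ), M j < n ∧
    (∀ k, seqθ M j ((seqSt M j).g k) = (seqSt M (j + 1)).g k) ∧
    Function.Surjective (seqθ M j) ∧
    (∀ x, (seqSt M j).L x < n → seqθ M j x = 1 → x = 1) ∧
    Nat.card (seqSt M (j + 1)).E = 2 * Nat.card (seqSt M j).E ∧
    (∀ x, ∃ y, seqθ M j ((seqSt M j).i x) = (seqSt M (j + 1)).j y) ∧
    (∀ y, ∃ x, seqθ M j ((seqSt M j).j y) = (seqSt M (j + 1)).i x) :=
  ((seqSt M j).exists_next (M j)).choose_spec.choose_spec

section

variable (M : ℕ → ℕ)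

/-- words in the generators -/
noncomputable def phi (j : ℕ) : FreeGroup (Fin 3) →* (seqSt M j).G :=
  FreeGroup.lift (seqSt M j).g

theorem phi_succ (j : ℕ) (w : FreeGroup (Fin 3)) : phi M (j + 1) w = seqθ M j (phi M j w) := by
  have : phi M (j + 1) = (seqθ M j).comp (phi M j) := by
    obtain ⟨n, _, h, _⟩ := seq_spec M j
    ext k
    simp only [phi, MonoidHom.comp_apply, FreeGroup.lift_apply_of]
    exact (h k).symm
  rw [this]
  rfl

theorem phi_surj (j : ℕ) : Function.Surjective (phi M j) := by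
  induction j with
  | zero => exact init_gen
  | succ j ih =>
    obtain ⟨n, _, _, h, _⟩ := seq_spec M j
    intro x
    obtain ⟨y, rfl⟩ := h x
    obtain ⟨w, rfl⟩ := ih y
    exact ⟨w, phi_succ M j w⟩

theorem phi_mono {i j : ℕ} (hij : i ≤ j) {w : FreeGroup (Fin 3)} (h : phi M i w = 1) :
    phi M j w = 1 := by
  induction hij with
  | refl => exact h
  | step _ ih => rw [phi_succ, ih, map_one]

theorem card_E (j : ℕ) : Nat.card (seqSt M j).E = 2 ^ j := by
  induction j with
  | zero =>
    show Nat.card Unit = 1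
    simp
  | succ j ih =>
    obtain ⟨n, _, _, _, _, h, _⟩ := seq_spec M j
    rw [h, ih]; ring

theorem L_phi (j : ℕ) (l : List (Fin 3 × Bool)) :
    (seqSt M j).L (phi M j (FreeGroup.mk l)) ≤ l.length := by
  induction l with
  | nil =>
    rw [← FreeGroup.one_eq_mk, map_one]
    exact le_of_eq (seqSt M j).str.L_one
  | cons x l ih =>
    obtain ⟨k, b⟩ := x
    have h1 : FreeGroup.mk ((k, b) :: l) = FreeGroup.mk [(k, b)] * FreeGroup.mk l := by
      rw [FreeGroup.mul_mk]; rfl
    rw [h1, map_mul, List.length_cons]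
    cases b
    · have h2 : FreeGroup.mk [(k, false)] = (FreeGroup.of k)⁻¹ := rfl
      rw [h2, map_inv]
      have h3 : phi M j (FreeGroup.of k) = (seqSt M j).g k := FreeGroup.lift_apply_of
      rw [h3]
      have := (seqSt M j).L_g_inv k (phi M j (FreeGroup.mk l))
      omega
    · have h2 : FreeGroup.mk [(k, true)] = FreeGroup.of k := rfl
      rw [h2]
      have h3 : phi M j (FreeGroup.of k) = (seqSt M j).g k := FreeGroup.lift_apply_of
      rw [h3]
      have := (seqSt M j).L_g k (phi M j (FreeGroup.mk l))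
      omega

theorem phi_back {i j : ℕ} (hM : Monotone M) (hij : i ≤ j) (l : List (Fin 3 × Bool))
    (hl : l.length ≤ M i) (h : phi M j (FreeGroup.mk l) = 1) : phi M i (FreeGroup.mk l) = 1 := by
  induction hij with
  | refl => exact h
  | @step j hij ih =>
    apply ih
    obtain ⟨n, h1, _, _, h2, _⟩ := seq_spec M j
    rw [phi_succ] at h
    refine h2 _ ?_ h
    have h3 := L_phi M j l
    have h4 := hM hij
    have h5 : M i ≤ M j := h4
    omega

theorem phi_range {i j : ℕ} (hM1 : ∀ j, 1 ≤ M j) (hij : i ≤ j) (w : FreeGroup (Fin 3))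
    (hw : (∃ x, phi M i w = (seqSt M i).i x) ∨ ∃ y, phi M i w = (seqSt M i).j y)
    (h : phi M i w ≠ 1) :
    ((∃ x, phi M j w = (seqSt M j).i x) ∨ ∃ y, phi M j w = (seqSt M j).j y) ∧ phi M j w ≠ 1 := by
  induction hij with
  | refl => exact ⟨hw, h⟩
  | @step j hij ih =>
    obtain ⟨h3, h4⟩ := ih
    obtain ⟨n, h1, _, _, h2, _, h5, h6⟩ := seq_spec M j
    have h7 := hM1 j
    rw [Nat.succ_eq_add_one, phi_succ]
    constructor
    · rcases h3 with ⟨x, hx⟩ | ⟨y, hy⟩
      · obtain ⟨y, hy⟩ := h5 x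
        exact Or.inr ⟨y, by rw [hx, hy]⟩
      · obtain ⟨x, hx⟩ := h6 y
        exact Or.inl ⟨x, by rw [hy, hx]⟩
    · intro h8
      apply h4
      apply h2 _ _ h8
      rcases h3 with ⟨x, hx⟩ | ⟨y, hy⟩
      · have h9 := (seqSt M j).L_i x 1
        have h10 : (seqSt M j).L 1 = 0 := (seqSt M j).str.L_one
        rw [mul_one, h10] at h9
        rw [hx]; omega
      · have h9 := (seqSt M j).L_j y 1
        have h10 : (seqSt M j).L 1 = 0 := (seqSt M j).str.L_one
        rw [mul_one, h10] at h9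
        rw [hy]; omega

/-- the kernel of the limit -/
noncomputable def NN : Subgroup (FreeGroup (Fin 3)) where
  carrier := {w | ∃ j, phi M j w = 1}
  one_mem' := ⟨0, map_one _⟩
  mul_mem' := by
    rintro x y ⟨i, hi⟩ ⟨j, hj⟩
    refine ⟨max i j, ?_⟩
    rw [map_mul, phi_mono M (le_max_left i j) hi, phi_mono M (le_max_right i j) hj, mul_one]
  inv_mem' := by
    rintro x ⟨i, hi⟩
    exact ⟨i, by rw [map_inv, hi, inv_one]⟩

theorem mem_NN (w : FreeGroup (Fin 3)) : w ∈ NN M ↔ ∃ j, phi M j w = 1 := Iff.rfl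

instance : (NN M).Normal where
  conj_mem := by
    rintro x ⟨j, hj⟩ g
    exact ⟨j, by rw [map_mul, map_mul, hj, mul_one, map_inv, mul_inv_cancel]⟩

end

theorem exists_limit (M : ℕ → ℕ) (hM : Monotone M) (hM1 : ∀ j, 1 ≤ M j) :
    ∃ (Γ : Type) (_ : Group Γ) (a : Fin 3 → Γ),
      Subgroup.closure (Set.range a) = ⊤ ∧
      (∀ j, ∃ (G : Type) (_ : Group G) (g : Fin 3 → G) (𝒦 : Set G → Prop),
        WS 𝒦 (12 * 2 ^ j) ∧ (∀ x k, 𝒦 {x, x * g k}) ∧
        ∀ l : List (Fin 3 × Bool), l.length ≤ M j →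
          (FreeGroup.lift a (FreeGroup.mk l) = 1 ↔ FreeGroup.lift g (FreeGroup.mk l) = 1)) ∧
      ∀ j, ∃ H : Subgroup Γ, Nat.card H = 2 ^ j := by
  let ψ : FreeGroup (Fin 3) →* FreeGroup (Fin 3) ⧸ NN M := QuotientGroup.mk' (NN M)
  let a : Fin 3 → FreeGroup (Fin 3) ⧸ NN M := fun k => ψ (FreeGroup.of k)
  have hψ : FreeGroup.lift a = ψ := by
    ext k
    simp only [FreeGroup.lift_apply_of, a]
  have hψ1 : ∀ w, ψ w = 1 ↔ w ∈ NN M := fun w => QuotientGroup.eq_one_iff w
  refine ⟨FreeGroup (Fin 3) ⧸ NN M, inferInstance, a, ?_, ?_, ?_⟩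
  · have h1 : (FreeGroup.lift a).range = ⊤ := by
      rw [hψ, MonoidHom.range_eq_top]
      exact QuotientGroup.mk'_surjective _
    rw [← h1, FreeGroup.range_lift_eq_closure]
  · intro j
    refine ⟨(seqSt M j).G, inferInstance, (seqSt M j).g, _, ?_, (seqSt M j).step_amK, ?_⟩
    · have := (seqSt M j).wG
      rw [card_E] at this
      exact this
    · intro l hl
      rw [hψ, hψ1, mem_NN]
      constructor
      · rintro ⟨i, hi⟩
        rcases le_total i j with h | h
        · exact phi_mono M h hi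
        · exact phi_back M hM h l hl hi
      · intro h
        exact ⟨j, h⟩
  · intro j
    have hker : (phi M j).ker ≤ ψ.ker := by
      intro w hw
      rw [MonoidHom.mem_ker] at hw ⊢
      rw [hψ1]
      exact ⟨j, hw⟩
    let ι : (seqSt M j).G →* FreeGroup (Fin 3) ⧸ NN M :=
      (phi M j).liftOfSurjective (phi_surj M j) ⟨ψ, hker⟩
    have hι : ∀ w, ι (phi M j w) = ψ w := by
      intro w
      exact MonoidHom.liftOfRightInverse_comp_apply _ _ _ ⟨ψ, hker⟩ w
    let η : (seqSt M j).E →* FreeGroup (Fin 3) ⧸ NN M :=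
      ι.comp ((seqSt M j).i.comp (((seqSt M j).r.comp (seqSt M j).p).comp (seqSt M j).e))
    have hη : Function.Injective η := by
      rw [injective_iff_map_eq_one]
      intro c hc
      obtain ⟨w, hw⟩ := phi_surj M j
        ((seqSt M j).i ((((seqSt M j).r.comp (seqSt M j).p).comp (seqSt M j).e) c))
      have h1 : η c = ι (phi M j w) := by
        rw [hw]; rfl
      rw [h1, hι, hψ1] at hc
      obtain ⟨i, hi⟩ := hc
      have h2 : phi M j w = 1 := by
        by_contra h3
        rcases le_total i j with h | h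
        · exact h3 (phi_mono M h hi)
        · exact (phi_range M hM1 h w (Or.inl ⟨_, hw⟩) h3).2 hi
      rw [hw] at h2
      have h3 := (seqSt M j).str.inji (h2.trans (map_one _).symm)
      have h4 : Function.Injective (((seqSt M j).r.comp (seqSt M j).p).comp (seqSt M j).e) :=
        ((seqSt M j).ir.comp (seqSt M j).ip).comp (seqSt M j).ie
      exact h4 (h3.trans (map_one _).symm)
    refine ⟨η.range, ?_⟩
    rw [← card_E M j]
    exact (Nat.card_congr (MonoidHom.ofInjective hη).toEquiv).symm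

end Pool.Agent.R790.Sep
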