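import Pool.Agent.R790.Sep.Defs
import Pool.Agent.R790.Sep.Lim

/-! Cayley graphs. -/

set_option autoImplicit false

namespace Pool.Agent.R790.Sep

open Classical

section

variable {Γ : Type} [Group Γ] (a : Fin 3 → Γ)

/-- evaluation of words -/
noncomputable def ev (l : List (Fin 3 × Bool)) : Γ := FreeGroup.lift a (FreeGroup.mk l)

theorem ev_append (l l' : List (Fin 3 × Bool)) : ev a (l ++ l') = ev a l * ev a l' := by
  unfold ev
  rw [← FreeGroup.mul_mk, map_mul]

theorem ev_nil : ev a [] = 1 := by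
  unfold ev
  rw [← FreeGroup.one_eq_mk, map_one]

theorem ev_true (k : Fin 3) : ev a [(k, true)] = a k := by
  have : FreeGroup.mk [(k, true)] = FreeGroup.of k := rfl
  rw [ev, this, FreeGroup.lift_apply_of]

theorem ev_false (k : Fin 3) : ev a [(k, false)] = (a k)⁻¹ := by
  have : FreeGroup.mk [(k, false)] = (FreeGroup.of k)⁻¹ := rfl
  rw [ev, this, map_inv, FreeGroup.lift_apply_of]

theorem ev_inv (l : List (Fin 3 × Bool)) : ev a (FreeGroup.invRev l) = (ev a l)⁻¹ := by
  unfold ev
  rw [← FreeGroup.inv_mk, map_inv]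

theorem adj_ev {x y : Γ} (h : (Cay a).Adj x y) : ∃ k b, y = x * ev a [(k, b)] := by
  obtain ⟨_, k, hk | hk⟩ := h
  · exact ⟨k, true, by rw [ev_true, hk]⟩
  · exact ⟨k, false, by rw [ev_false, hk, mul_inv_cancel_right]⟩

theorem walk_ev {x y : Γ} (p : (Cay a).Walk x y) :
    ∃ l : List (Fin 3 × Bool), l.length = p.length ∧ y = x * ev a l := by
  induction p with
  | nil => exact ⟨[], rfl, by rw [ev_nil, mul_one]⟩
  | cons h p ih =>
    obtain ⟨l, hl, rfl⟩ := ih
    obtain ⟨k, b, rfl⟩ := adj_ev a h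
    refine ⟨(k, b) :: l, by simp [hl], ?_⟩
    rw [mul_assoc, ← ev_append]
    rfl

/-- left translations -/
def tr (g : Γ) : Cay a ≃g Cay a where
  toFun x := g * x
  invFun x := g⁻¹ * x
  left_inv x := by simp
  right_inv x := by simp
  map_rel_iff' := by
    intro x y
    simp only [Equiv.coe_fn_mk, Cay, ne_eq, mul_right_inj, mul_assoc]

theorem cay_trans (u v : Γ) : ∃ f : Cay a ≃g Cay a, f u = v :=
  ⟨tr a (v * u⁻¹), by simp [tr]⟩

theorem cay_lf (v : Γ) : ((Cay a).neighborSet v).Finite := by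
  refine Set.Finite.subset (Set.Finite.union (Set.finite_range (fun k => v * a k))
    (Set.finite_range (fun k => v * (a k)⁻¹))) ?_
  intro w hw
  obtain ⟨_, k, hk | hk⟩ := hw
  · exact Or.inl ⟨k, hk.symm⟩
  · exact Or.inr ⟨k, by simp [hk]⟩

theorem cay_conn (ha : Subgroup.closure (Set.range a) = ⊤) : (Cay a).Connected := by
  have h1 : ∀ x y, (Cay a).Reachable y (y * x) := by
    intro x
    have hx : x ∈ Subgroup.closure (Set.range a) := by rw [ha]; trivial
    induction hx using Subgroup.closure_induction with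
    | mem x hx =>
      obtain ⟨k, rfl⟩ := hx
      intro y
      by_cases h : y = y * a k
      · rw [← h]
      · exact SimpleGraph.Adj.reachable ⟨h, k, Or.inl rfl⟩
    | one => intro y; rw [mul_one]
    | mul x z _ _ hx hz =>
      intro y
      rw [← mul_assoc]
      exact (hx y).trans (hz _)
    | inv x _ hx =>
      intro y
      have := hx (y * x⁻¹)
      rw [inv_mul_cancel_right] at this
      exact this.symm
  refine ⟨fun x y => ?_⟩
  have := h1 (x⁻¹ * y) x
  rwa [mul_inv_cancel_left] at this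

theorem reach_inv {V : Type} {H : SimpleGraph V} (P : V → Prop)
    (hP : ∀ x y, H.Adj x y → P x → P y) {x y : V} (h : H.Reachable x y) (hx : P x) : P y := by
  obtain ⟨p⟩ := h
  induction p with
  | nil => exact hx
  | cons h p ih => exact ih (hP _ _ h hx)

/-- If balls in the Cayley graph look like balls in a group with small separators, finite
subgraphs have small separators. -/
theorem exists_cut {G : Type} [Group G] (g : Fin 3 → G) (𝒦 : Set G → Prop) {w N : ℕ}
    (hws : WS 𝒦 w) (hK : ∀ x k, 𝒦 {x, x * g k})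
    (hloc : ∀ l : List (Fin 3 × Bool), l.length ≤ 2 * N → (ev a l = 1 ↔ ev g l = 1))
    (Λ : (Cay a).Subgraph) (hfin : Λ.verts.Finite) (hN : Λ.verts.ncard ≤ N) :
    ∃ S, IsCut Λ S ∧ S.ncard ≤ w := by
  by_cases hall : ∀ C : Λ.coe.ConnectedComponent, 2 * C.supp.ncard ≤ Λ.verts.ncard
  · refine ⟨∅, ⟨Set.empty_subset _, ?_⟩, by simp⟩
    rw [SimpleGraph.Subgraph.deleteVerts_empty]
    exact hall
  push Not at hall
  obtain ⟨C0, hC0⟩ := hall
  have : Fintype Λ.verts := hfin.fintype
  -- a base point and words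
  obtain ⟨v0, hv0⟩ := C0.exists_rep
  have hword : ∀ v : Λ.verts, Λ.coe.connectedComponentMk v = C0 →
      ∃ l : List (Fin 3 × Bool), l.length < N ∧ (v : Γ) = v0 * ev a l := by
    intro v hv
    have hr : Λ.coe.Reachable v0 v := by
      apply SimpleGraph.ConnectedComponent.exact
      rw [hv]; exact hv0
    obtain ⟨p, hp⟩ := hr.exists_isPath
    have h1 := hp.length_lt
    obtain ⟨l, hl1, hl2⟩ := walk_ev a (p.map Λ.hom)
    refine ⟨l, ?_, hl2⟩
    rw [hl1, SimpleGraph.Walk.length_map]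
    rw [← Nat.card_eq_fintype_card, Nat.card_coe_set_eq] at h1
    omega
  choose! wd hwd1 hwd2 using hword
  let lam : Λ.verts → G := fun v => ev g (wd v)
  have hlamadj : ∀ v v' : Λ.verts, Λ.coe.connectedComponentMk v = C0 →
      Λ.coe.connectedComponentMk v' = C0 → Λ.Adj v v' →
      ∃ k, lam v' = lam v * g k ∨ lam v = lam v' * g k := by
    intro v v' hv hv' hadj
    have key : ∀ u u' : Λ.verts, Λ.coe.connectedComponentMk u = C0 →
        Λ.coe.connectedComponentMk u' = C0 → ∀ k, (u' : Γ) = u * a k → lam u' = lam u * g k := by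
      intro u u' hu hu' k hk
      have h1 : ev a (wd u ++ [(k, true)] ++ FreeGroup.invRev (wd u')) = 1 := by
        rw [ev_append, ev_append, ev_true, ev_inv]
        rw [hwd2 u hu, hwd2 u' hu', mul_assoc] at hk
        rw [← mul_left_cancel hk, mul_inv_cancel]
      have h2 := (hloc _ (by
        simp only [List.length_append, FreeGroup.invRev_length, List.length_singleton]
        have := hwd1 u hu
        have := hwd1 u' hu'
        omega)).1 h1
      rw [ev_append, ev_append, ev_true, ev_inv, mul_inv_eq_one] at h2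
      exact h2.symm
    obtain ⟨_, k, hk | hk⟩ := hadj.adj_sub
    · exact ⟨k, Or.inl (key v v' hv hv' k hk)⟩
    · exact ⟨k, Or.inr (key v' v hv' hv k hk)⟩
  have hlaminj : ∀ v v' : Λ.verts, Λ.coe.connectedComponentMk v = C0 →
      Λ.coe.connectedComponentMk v' = C0 → lam v = lam v' → v = v' := by
    intro u u' hu hu' h
    have h1 : ev g (wd u ++ FreeGroup.invRev (wd u')) = 1 := by
      rw [ev_append, ev_inv]
      have : ev g (wd u) = ev g (wd u') := h
      rw [this, mul_inv_cancel]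
    have h2 := (hloc _ (by
        simp only [List.length_append, FreeGroup.invRev_length]
        have := hwd1 u hu
        have := hwd1 u' hu'
        omega)).2 h1
    rw [ev_append, ev_inv, mul_inv_eq_one] at h2
    apply Subtype.ext
    rw [hwd2 u hu, hwd2 u' hu', h2]
  obtain ⟨S', κ, c, hS1, hS2, hS3⟩ := hws (C0.supp) (fun v => {lam v.1}) (fun _ => 1) (by
    intro v
    refine ⟨_, hK (lam v.1) 0, ?_⟩
    simp)
  let S : Set Γ := {v | ∃ h : v ∈ Λ.verts, Λ.coe.connectedComponentMk ⟨v, h⟩ = C0 ∧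
    lam ⟨v, h⟩ ∈ S'}
  have hSsub : S ⊆ Λ.verts := by
    rintro v ⟨h, _⟩
    exact h
  have hSfin : S.Finite := hfin.subset hSsub
  refine ⟨S, ⟨hSsub, ?_⟩, ?_⟩
  · intro D
    -- transfer to the ambient type
    have hDcard : D.supp.ncard = ((Subtype.val : (Λ.deleteVerts S).verts → Γ) '' D.supp).ncard :=
      (Set.ncard_image_of_injective _ Subtype.val_injective).symm
    rw [hDcard]
    obtain ⟨u, hu⟩ := D.exists_rep
    have hDreach : ∀ v ∈ D.supp, (Λ.deleteVerts S).coe.Reachable u v := by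
      intro v hv
      apply SimpleGraph.ConnectedComponent.exact
      rw [SimpleGraph.ConnectedComponent.mem_supp_iff] at hv
      rw [hv]; exact hu
    have hvΛ : ∀ v : (Λ.deleteVerts S).verts, (v : Γ) ∈ Λ.verts := fun v => v.2.1
    have hvS : ∀ v : (Λ.deleteVerts S).verts, (v : Γ) ∉ S := fun v => v.2.2
    have hadjΛ : ∀ v v' : (Λ.deleteVerts S).verts, (Λ.deleteVerts S).coe.Adj v v' →
        Λ.Adj v v' := by
      intro v v' h
      exact (SimpleGraph.Subgraph.deleteVerts_le).2 h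
    have hcomp : ∀ v v' : (Λ.deleteVerts S).verts, (Λ.deleteVerts S).coe.Adj v v' →
        Λ.coe.connectedComponentMk ⟨v, hvΛ v⟩ = Λ.coe.connectedComponentMk ⟨v', hvΛ v'⟩ := by
      intro v v' h
      apply SimpleGraph.ConnectedComponent.sound
      apply SimpleGraph.Adj.reachable
      exact hadjΛ v v' h
    by_cases huC : Λ.coe.connectedComponentMk ⟨u, hvΛ u⟩ = C0
    · have hP : ∀ v ∈ D.supp, Λ.coe.connectedComponentMk ⟨v, hvΛ v⟩ = C0 ∧
          c (lam ⟨v, hvΛ v⟩) = c (lam ⟨u, hvΛ u⟩) := by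
        intro v hv
        refine reach_inv (fun v : (Λ.deleteVerts S).verts =>
          Λ.coe.connectedComponentMk ⟨v, hvΛ v⟩ = C0 ∧
          c (lam ⟨v, hvΛ v⟩) = c (lam ⟨u, hvΛ u⟩)) ?_ (hDreach v hv) ⟨huC, rfl⟩
        intro x y hxy hx
        have hy := (hcomp x y hxy).symm.trans hx.1
        refine ⟨hy, ?_⟩
        rw [← hx.2]
        have hxS : lam ⟨x, hvΛ x⟩ ∉ S' := by
          intro h
          exact hvS x ⟨hvΛ x, hx.1, h⟩
        have hyS : lam ⟨y, hvΛ y⟩ ∉ S' := by
          intro h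
          exact hvS y ⟨hvΛ y, hy, h⟩
        obtain ⟨k, hk | hk⟩ := hlamadj _ _ hx.1 hy (hadjΛ x y hxy)
        · exact hS2 _ (hK (lam ⟨x, hvΛ x⟩) k) _ (by rw [hk]; simp) _ (by simp) hyS hxS
        · exact hS2 _ (hK (lam ⟨y, hvΛ y⟩) k) _ (by simp) _ (by rw [hk]; simp) hyS hxS
      have h3 := hS3 (c (lam ⟨u, hvΛ u⟩))
      rw [← Finset.card_eq_sum_ones, ← Finset.card_eq_sum_ones, Finset.card_univ,
        ← Nat.card_eq_fintype_card, Nat.card_coe_set_eq] at h3
      have h4 : ((Subtype.val : (Λ.deleteVerts S).verts → Γ) '' D.supp) ⊆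
          (fun v : C0.supp => (v.1 : Γ)) '' ↑(Finset.univ.filter (fun v : C0.supp =>
            ∃ x ∈ ({lam v.1} : Finset G), x ∉ S' ∧ c x = c (lam ⟨u, hvΛ u⟩))) := by
        rintro _ ⟨v, hv, rfl⟩
        obtain ⟨h5, h6⟩ := hP v hv
        refine ⟨⟨⟨v, hvΛ v⟩, h5⟩, ?_, rfl⟩
        simp only [Finset.coe_filter, Finset.mem_univ, true_and]
        refine ⟨lam ⟨v, hvΛ v⟩, by simp, ?_, h6⟩
        intro h
        exact hvS v ⟨hvΛ v, h5, h⟩
      have h5 := Set.ncard_le_ncard h4 (Set.toFinite _)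
      have h6 := Set.ncard_image_le (f := fun v : C0.supp => (v.1 : Γ))
        (s := ↑(Finset.univ.filter (fun v : C0.supp =>
            ∃ x ∈ ({lam v.1} : Finset G), x ∉ S' ∧ c x = c (lam ⟨u, hvΛ u⟩)))) (Set.toFinite _)
      rw [Set.ncard_coe_finset] at h6
      have h7 : C0.supp.ncard ≤ Λ.verts.ncard := by
        have := Set.ncard_le_card C0.supp
        rw [Nat.card_coe_set_eq] at this
        exact this
      have h8 : (Finset.univ.filter (fun v : C0.supp =>
            ∃ x ∈ ({lam v.1} : Finset G), x ∉ S' ∧ c x = c (lam ⟨u, hvΛ u⟩))).card * 2 ≤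
            C0.supp.ncard := by
        rw [mul_comm]
        convert h3
      omega
    · have hP : ∀ v ∈ D.supp, Λ.coe.connectedComponentMk ⟨v, hvΛ v⟩ ≠ C0 := by
        intro v hv
        refine reach_inv (fun v : (Λ.deleteVerts S).verts =>
          Λ.coe.connectedComponentMk ⟨v, hvΛ v⟩ ≠ C0) ?_ (hDreach v hv) huC
        intro x y hxy hx hy
        exact hx ((hcomp x y hxy).trans hy)
      have h4 : ((Subtype.val : (Λ.deleteVerts S).verts → Γ) '' D.supp) ⊆
          Λ.verts \ (Subtype.val '' C0.supp) := by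
        rintro _ ⟨v, hv, rfl⟩
        refine ⟨hvΛ v, ?_⟩
        rintro ⟨v', hv', h⟩
        apply hP v hv
        have : v' = ⟨v, hvΛ v⟩ := Subtype.ext h
        rw [← this]
        exact hv'
      have h5 := Set.ncard_le_ncard h4 (hfin.subset Set.sdiff_subset)
      have h6 : (Subtype.val '' C0.supp) ⊆ Λ.verts := by
        rintro _ ⟨v, _, rfl⟩
        exact v.2
      have h7 : ((Subtype.val : Λ.verts → Γ) '' C0.supp).ncard = C0.supp.ncard :=
        Set.ncard_image_of_injective _ Subtype.val_injective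
      have h8 := Set.ncard_le_ncard h6 hfin
      rw [Set.ncard_sdiff h6 (hfin.subset h6), h7] at h5
      rw [h7] at h8
      omega
  · refine le_trans ?_ hS1
    rw [← Set.ncard_coe_finset]
    let F : Γ → G := fun v => if h : v ∈ Λ.verts then lam ⟨v, h⟩ else 1
    refine Set.ncard_le_ncard_of_injOn F ?_ ?_ (Set.toFinite _)
    · rintro v ⟨h, h1, h2⟩
      simp only [F, dif_pos h]
      exact h2
    · rintro v ⟨h, h1, h2⟩ v' ⟨h', h1', h2'⟩ h3
      simp only [F, dif_pos h, dif_pos h'] at h3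
      exact congrArg Subtype.val (hlaminj _ _ h1 h1' h3)

theorem cut_le {V : Type} {H : SimpleGraph V} (Λ : H.Subgraph) (S : Set V) (h : IsCut Λ S) :
    cut Λ ≤ S.ncard := Nat.sInf_le ⟨S, h, rfl⟩

theorem sep_le {V : Type} {H : SimpleGraph V} (n B : ℕ)
    (h : ∀ Λ : H.Subgraph, Λ.verts.Finite → Λ.verts.ncard ≤ n → cut Λ ≤ B) : sep H n ≤ B := by
  apply csSup_le'
  rintro k ⟨Λ, h1, h2, rfl⟩
  exact h Λ h1 h2

theorem sep_le_self {V : Type} {H : SimpleGraph V} (n : ℕ) : sep H n ≤ n := by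
  apply sep_le
  intro Λ h1 h2
  refine (cut_le Λ Λ.verts ⟨subset_rfl, ?_⟩).trans h2
  intro C
  obtain ⟨⟨v, hv⟩, _⟩ := C.exists_rep
  exact absurd hv.1 hv.2

end

end Pool.Agent.R790.Sep
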