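import Pool.Agent.R790.Sep.Gr

/-! Finite subgroups of groups with a hyperbolic Cayley graph. -/

set_option autoImplicit false

namespace Pool.Agent.R790.Sep

open Classical

theorem on_geo {V : Type} {H : SimpleGraph V} (hc : H.Connected) {x y : V} (p : H.Walk x y)
    (hp : p.length = H.dist x y) {v : V} (hv : v ∈ p.support) :
    H.dist x v + H.dist v y = H.dist x y := by
  have h1 := p.take_spec hv
  have h2 : (p.takeUntil v hv).length + (p.dropUntil v hv).length = p.length := by
    conv_rhs => rw [← h1]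
    rw [SimpleGraph.Walk.length_append]
  have h3 := SimpleGraph.dist_le (p.takeUntil v hv)
  have h4 := SimpleGraph.dist_le (p.dropUntil v hv)
  have h5 := hc.dist_triangle (u := x) (v := v) (w := y)
  omega

section

variable {Γ : Type} [Group Γ] (a : Fin 3 → Γ)

theorem dist_left (ha : (Cay a).Connected) (g x y : Γ) :
    (Cay a).dist (g * x) (g * y) = (Cay a).dist x y := by
  have key : ∀ g x y : Γ, (Cay a).dist (g * x) (g * y) ≤ (Cay a).dist x y := by
    intro g x y
    obtain ⟨p, hp⟩ := ha.exists_walk_length_eq_dist x y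
    have h1 := SimpleGraph.dist_le (p.map (tr a g).toHom)
    rw [SimpleGraph.Walk.length_map, hp] at h1
    exact h1
  apply le_antisymm (key g x y)
  have := key g⁻¹ (g * x) (g * y)
  rwa [inv_mul_cancel_left, inv_mul_cancel_left] at this

theorem ball_finite (ha : (Cay a).Connected) (r : ℕ) : {y | (Cay a).dist 1 y ≤ r}.Finite := by
  refine Set.Finite.subset ((List.finite_length_le (Fin 3 × Bool) r).image (ev a)) ?_
  intro y hy
  obtain ⟨p, hp⟩ := ha.exists_walk_length_eq_dist 1 y
  obtain ⟨l, hl1, hl2⟩ := walk_ev a p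
  refine ⟨l, ?_, by rw [hl2, one_mul]⟩
  have : (Cay a).dist 1 y ≤ r := hy
  show l.length ≤ r
  omega

theorem center (ha : (Cay a).Connected) {δ : ℕ}
    (hδ : ∀ (x y z : Γ) (p : (Cay a).Walk x y) (q : (Cay a).Walk y z) (r : (Cay a).Walk x z),
      p.length = (Cay a).dist x y → q.length = (Cay a).dist y z → r.length = (Cay a).dist x z →
      ∀ u ∈ p.support, ∃ v, (v ∈ q.support ∨ v ∈ r.support) ∧ (Cay a).dist u v ≤ δ)
    (H : Subgroup Γ) [Finite H] : ∃ x, ∀ h ∈ H, (Cay a).dist x (h * x) ≤ 4 * δ + 1 := by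
  have hex : ∃ R, ∃ x, ∀ h ∈ H, (Cay a).dist x h ≤ R := by
    obtain ⟨R, hR⟩ := (Set.finite_range (fun h : H => (Cay a).dist 1 h.1)).bddAbove
    exact ⟨R, 1, fun h hh => hR ⟨⟨h, hh⟩, rfl⟩⟩
  obtain ⟨x0, hx0⟩ := Nat.find_spec hex
  set R := Nat.find hex with hR
  refine ⟨x0, ?_⟩
  intro h0 hh0
  by_contra hcon
  push Not at hcon
  set y0 := h0 * x0 with hy0
  have hy0c : ∀ h ∈ H, (Cay a).dist y0 h ≤ R := by
    intro h hh
    have h1 := hx0 (h0⁻¹ * h) (H.mul_mem (H.inv_mem hh0) hh)
    rw [← dist_left a ha h0, mul_inv_cancel_left] at h1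
    exact h1
  obtain ⟨p, hp⟩ := ha.exists_walk_length_eq_dist x0 y0
  set d := (Cay a).dist x0 y0 with hd
  set m0 := p.getVert (d / 2) with hm0
  have hm1 : m0 ∈ p.support := p.getVert_mem_support _
  have hm2 : (Cay a).dist x0 m0 ≤ d / 2 := by
    have h1 := SimpleGraph.dist_le (p.take (d / 2))
    rw [SimpleGraph.Walk.take_length] at h1
    exact h1.trans (min_le_left _ _)
  have hm3 : (Cay a).dist m0 y0 ≤ d - d / 2 := by
    have h1 := SimpleGraph.dist_le (p.drop (d / 2))
    rw [SimpleGraph.Walk.drop_length, hp] at h1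
    exact h1
  have hm4 := ha.dist_triangle (u := x0) (v := m0) (w := y0)
  have key : ∀ h ∈ H, (Cay a).dist m0 h + 1 ≤ R := by
    intro h hh
    obtain ⟨q, hq⟩ := ha.exists_walk_length_eq_dist y0 h
    obtain ⟨r, hr⟩ := ha.exists_walk_length_eq_dist x0 h
    obtain ⟨v, hv1, hv2⟩ := hδ x0 y0 h p q r hp hq hr m0 hm1
    have h3 := ha.dist_triangle (u := m0) (v := v) (w := h)
    rcases hv1 with hv1 | hv1
    · have h1 := on_geo ha q hq hv1
      have h2 := ha.dist_triangle (u := m0) (v := v) (w := y0)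
      have h4 := hy0c h hh
      rw [(Cay a).dist_comm (u := v) (v := y0)] at h2
      omega
    · have h1 := on_geo ha r hr hv1
      have h2 := ha.dist_triangle (u := x0) (v := v) (w := m0)
      have h4 := hx0 h hh
      rw [(Cay a).dist_comm (u := v) (v := m0)] at h2
      omega
  have hR1 := key 1 H.one_mem
  have := Nat.find_min hex (m := R - 1) (by omega)
  apply this
  refine ⟨m0, ?_⟩
  intro h hh
  have := key h hh
  omega

theorem not_hyperbolic (ha : Subgroup.closure (Set.range a) = ⊤)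
    (hH : ∀ j, ∃ H : Subgroup Γ, Nat.card H = 2 ^ j) : ¬ Hyperbolic (Cay a) := by
  rintro ⟨δ, hδ⟩
  have hc := cay_conn a ha
  have hfin := ball_finite a hc (4 * δ + 1)
  set B := {y | (Cay a).dist 1 y ≤ 4 * δ + 1} with hB
  obtain ⟨H, hcard⟩ := hH B.ncard
  have hfinH : Finite H := Nat.finite_of_card_ne_zero (by rw [hcard]; positivity)
  obtain ⟨x, hx⟩ := center a hc hδ H
  have h1 : Nat.card H ≤ B.ncard := by
    have h0 : Nat.card H = (H : Set Γ).ncard := Nat.card_coe_set_eq _
    rw [h0]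
    refine Set.ncard_le_ncard_of_injOn (fun h => x⁻¹ * (h * x)) ?_ ?_ hfin
    · intro h hh
      show (Cay a).dist 1 (x⁻¹ * (h * x)) ≤ _
      rw [← dist_left a hc x, mul_one, mul_inv_cancel_left]
      exact hx h hh
    · intro h _ h' _ heq
      simpa using heq
  rw [hcard] at h1
  exact absurd h1 (not_le.2 Nat.lt_two_pow_self)

end

end Pool.Agent.R790.Sep
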