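import Pool.Agent.R790.Sep.Fg2

/-! Local injectivity of the map between consecutive amalgams. -/

set_option autoImplicit false

namespace Pool.Agent.R790.Sep

open Classical

/-- iterated negation -/
def fl : ℕ → Bool → Bool
  | 0, t => t
  | n + 1, t => fl n (!t)

theorem fl_even (k : ℕ) (t : Bool) : fl (2 * k) t = t := by
  induction k with
  | zero => rfl
  | succ k ih =>
    rw [show 2 * (k + 1) = 2 * k + 1 + 1 by ring]
    simp only [fl, Bool.not_not, ih]

theorem dg_alt_ne_one {n : ℕ} (t : Bool) (l : ℕ) (hl : 0 < l) (hln : l < n) :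
    alt (dg n) t l ≠ 1 := by
  obtain ⟨k, rfl | rfl⟩ := Nat.even_or_odd' l
  · rw [dg_alt_even]
    intro h
    rw [r_eq_one] at h
    have h4 : (k : ZMod n) = 0 := by
      cases t <;> simpa using h
    rw [ZMod.natCast_eq_zero_iff] at h4
    have := Nat.le_of_dvd (by omega) h4
    omega
  · rw [dg_alt_odd]
    exact sr_ne_one _

theorem AmStr.T_B {A B C G : Type} [Group A] [Group B] [Group C] [Group G]
    {α : C →* A} {β : C →* B} {i : A →* G} {j : B →* G} {T : G → Option Bool} {L : G → ℕ}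
    (h : AmStr α β i j T L) (b : B) : T (j b) ≠ some true := by
  intro h1
  apply h.swap.T_A b
  simp [h1]

section

variable {E P Q X Y F X' G G' : Type} [Group E] [Group P] [Group Q] [Group X] [Group Y]
  [Group X'] [Group G] [Group G']
  {e : E →* P} {f : E →* Q} {q : Q →* Y} {r : P →* X} {n : ℕ} {Fm : FinAm e f n}
  {i0 : X →* G} {j0 : Y →* G} {T0 : G → Option Bool} {L0 : G → ℕ}
  {i1 : Y →* X'} {j1 : Fm.F →* X'} {T1 : X' → Option Bool} {L1 : X' → ℕ}
  {i2 : X' →* G'} {j2 : X →* G'} {T2 : G' → Option Bool} {L2 : G' → ℕ}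

/-- elements starting with a proper letter of the second factor -/
def HX (T2 : G' → Option Bool) (h : G') : Prop := T2 h = some false

/-- elements starting with a letter which starts in the first factor of the first factor -/
def HY (T1 : X' → Option Bool) (i2 : X' →* G') (T2 : G' → Option Bool) (h : G') : Prop :=
  ∃ x' r0, h = i2 x' * r0 ∧ T2 r0 ≠ some true ∧ T1 x' = some true

variable (h1 : AmStr q Fm.b i1 j1 T1 L1) (h2 : AmStr (j1.comp Fm.a) r i2 j2 T2 L2)
include h1 h2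

theorem fact_a {x : Fm.F} (hx : x ∉ Fm.b.range) {h : G'} (hh : HY T1 i2 T2 h) :
    ¬ HY T1 i2 T2 (i2 (j1 x) * h) := by
  rintro ⟨x'', r0', e1, e2, e3⟩
  obtain ⟨x', r0, rfl, e5, e6⟩ := hh
  have e7 : r0' = i2 (x''⁻¹ * (j1 x * x')) * r0 := by
    rw [map_mul, map_mul, map_inv, mul_assoc, mul_assoc, e1, inv_mul_cancel_left]
  by_cases e8 : x''⁻¹ * (j1 x * x') ∈ (j1.comp Fm.a).range
  · obtain ⟨c, hc⟩ := e8
    have e9 : x'' * j1 (Fm.a c) = j1 x * x' := by
      have : j1 (Fm.a c) = x''⁻¹ * (j1 x * x') := hc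
      rw [this, mul_inv_cancel_left]
    have e10 := h1.right_B e3 (Fm.a c)
    have e11 := (h1.consB x x' hx (by rw [e6]; simp)).1
    rw [e9, e11] at e10
    simp at e10
  · have e9 := (h2.consA _ r0 e8 e5).1
    rw [← e7] at e9
    exact e2 e9

theorem fact_b {y : Y} (hy : y ∉ q.range) {h : G'} (hh : ¬ HY T1 i2 T2 h) :
    HY T1 i2 T2 (i2 (i1 y) * h) := by
  have e1 : ∃ x'' r0, h = i2 x'' * r0 ∧ T2 r0 ≠ some true := by
    by_cases e2 : T2 h = some true
    · obtain ⟨x'', r0, e3, _, e4, _⟩ := h2.uncons e2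
      exact ⟨x'', r0, e3, e4⟩
    · exact ⟨1, h, by simp, e2⟩
  obtain ⟨x'', r0, e3, e4⟩ := e1
  refine ⟨i1 y * x'', r0, ?_, e4, ?_⟩
  · rw [e3, map_mul, mul_assoc]
  · refine (h1.consA y x'' hy ?_).1
    intro e5
    exact hh ⟨x'', r0, e3, e4, e5⟩

omit h1 in
theorem fact_c {x : X} (hx : x ∉ r.range) {h : G'} (hh : ¬ HX T2 h) : HX T2 (j2 x * h) :=
  (h2.consB x h hx hh).1

theorem fact_d {x : Fm.F} (hx : x ∉ Fm.a.range) {h : G'} (hh : HX T2 h) :
    ¬ HX T2 (i2 (j1 x) * h) := by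
  intro e1
  have e2 : j1 x ∉ (j1.comp Fm.a).range := by
    rintro ⟨c, hc⟩
    exact hx ⟨c, h1.injj hc⟩
  have e3 := (h2.consA _ h e2 (by unfold HX at hh; rw [hh]; simp)).1
  unfold HX at e1
  rw [e3] at e1
  simp at e1

theorem fact_e {x : Fm.F} {h : G'} (hh : HX T2 h) : ¬ HY T1 i2 T2 (i2 (j1 x) * h) := by
  rintro ⟨x', r0, e1, e2, e3⟩
  have e4 : r0 = i2 (x'⁻¹ * j1 x) * h := by
    rw [map_mul, map_inv, mul_assoc, e1, inv_mul_cancel_left]
  by_cases e5 : x'⁻¹ * j1 x ∈ (j1.comp Fm.a).range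
  · obtain ⟨c, hc⟩ := e5
    have e6 : x' = j1 (x * (Fm.a c)⁻¹) := by
      have : j1 (Fm.a c) = x'⁻¹ * j1 x := hc
      rw [map_mul, map_inv, this]; group
    rw [e6] at e3
    exact h1.T_B _ e3
  · have e6 := (h2.consA _ h e5 (by unfold HX at hh; rw [hh]; simp)).1
    rw [← e4] at e6
    exact e2 e6

theorem fact_f {x : Fm.F} {h : G'} (hh : HY T1 i2 T2 h) : ¬ HX T2 (i2 (j1 x) * h) := by
  intro e1
  obtain ⟨x', r0, rfl, e2, e3⟩ := hh
  by_cases e4 : j1 x * x' ∈ (j1.comp Fm.a).range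
  · obtain ⟨c, hc⟩ := e4
    have e5 : x' = j1 (x⁻¹ * Fm.a c) := by
      have : j1 (Fm.a c) = j1 x * x' := hc
      rw [map_mul, map_inv, this]; group
    rw [e5] at e3
    exact h1.T_B _ e3
  · have e5 := (h2.consA _ r0 e4 e2).1
    unfold HX at e1
    rw [← mul_assoc, ← map_mul, e5] at e1
    simp at e1

omit h1 in
theorem fact_g (x : Fm.F) : ¬ HX T2 (i2 (j1 x)) := h2.T_A _

theorem fact_h (x : Fm.F) : ¬ HY T1 i2 T2 (i2 (j1 x)) := by
  rintro ⟨x', r0, e1, e2, e3⟩
  have e4 : r0 = i2 (x'⁻¹ * j1 x) := by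
    rw [map_mul, map_inv, e1, inv_mul_cancel_left]
  by_cases e5 : x'⁻¹ * j1 x ∈ (j1.comp Fm.a).range
  · obtain ⟨c, hc⟩ := e5
    have e6 : x' = j1 (x * (Fm.a c)⁻¹) := by
      have : j1 (Fm.a c) = x'⁻¹ * j1 x := hc
      rw [map_mul, map_inv, this]; group
    rw [e6] at e3
    exact h1.T_B _ e3
  · have e6 := (h2.T_A_of_not e5).1
    rw [← e4] at e6
    exact e2 e6

omit h1 h2 in
theorem not_a (he2 : e.range.index = 2) {x : Fm.F} {l : ℕ} (hx : Fm.π x = alt (dg n) false l)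
    (hl : l < n) (hfl : fl l false = true) : x ∉ Fm.a.range := by
  intro h
  rw [Fm.range_a he2] at h
  have h3 : Fm.π x ∈ DK n 1 := h
  rw [hx] at h3
  obtain ⟨k, rfl | rfl⟩ := Nat.even_or_odd' l
  · rw [fl_even] at hfl
    simp at hfl
  · rw [dg_alt_odd, sr_mem_DK, mem_tor] at h3
    simp only [Nat.cast_one, one_mul] at h3
    have h4 : ((k + 1 : ℕ) : ZMod n) = 0 := by
      push_cast
      rw [← h3]
      simp [add_comm]
    rw [ZMod.natCast_eq_zero_iff] at h4
    have := Nat.le_of_dvd (by omega) h4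
    omega

omit h1 h2 in
theorem not_b {x : Fm.F} {l : ℕ} (hx : Fm.π x = alt (dg n) true l)
    (hl : l < n) (hfl : fl l true = false) : x ∉ Fm.b.range := by
  rintro ⟨y, rfl⟩
  obtain ⟨k, rfl | rfl⟩ := Nat.even_or_odd' l
  · rw [fl_even] at hfl
    simp at hfl
  · rw [dg_alt_odd] at hx
    by_cases hy : y ∈ f.range
    · obtain ⟨c, rfl⟩ := hy
      rw [← Fm.comm, Fm.πe] at hx
      exact sr_ne_one _ hx.symm
    · rw [Fm.πb y hy] at hx
      have h3 := DihedralGroup.sr.inj hx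
      simp only [if_true] at h3
      have h4 : ((k + 1 : ℕ) : ZMod n) = 0 := by
        push_cast
        rw [h3]; ring
      rw [ZMod.natCast_eq_zero_iff] at h4
      have := Nat.le_of_dvd (by omega) h4
      omega

/-- the shape of the image of an element -/
def Inv (T1 : X' → Option Bool) (i2 : X' →* G') (j1 : Fm.F →* X') (T2 : G' → Option Bool)
    (t : Bool) (len : ℕ) (z : G') : Prop :=
  ∃ (x : Fm.F) (l : ℕ) (h : G'), z = i2 (j1 x) * h ∧ Fm.π x = alt (dg n) t l ∧
    ((h = 1 ∧ l = len) ∨ (l < len ∧ ((fl l t = true ∧ HX T2 h) ∨ (fl l t = false ∧ HY T1 i2 T2 h))))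

variable (h0 : AmStr (r.comp e) (q.comp f) i0 j0 T0 L0)
  (he2 : e.range.index = 2) (hf2 : f.range.index = 2)
  (θ : G →* G') (hθ1 : ∀ x, θ (i0 x) = j2 x) (hθ2 : ∀ y, θ (j0 y) = i2 (i1 y))

include h0 he2 hθ1 hθ2

theorem inv_main (N : ℕ) : ∀ g, L0 g ≤ N → L0 g ≤ n → ∀ t, T0 g = some t →
    Inv T1 i2 j1 T2 t (L0 g) (θ g) := by
  induction N using Nat.strong_induction_on with
  | _ N ih =>
  intro g hg hgn t ht
  have hja : ∀ p, j2 (r p) = i2 (j1 (Fm.a p)) := fun p => (h2.comm p).symm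
  have hib : ∀ y, i2 (i1 (q y)) = i2 (j1 (Fm.b y)) := fun y => by rw [h1.comm]
  cases t
  · -- the first letter is in the second factor
    obtain ⟨y, g', rfl, e2, e3, e4⟩ := h0.uncons' ht
    rcases e5 : T0 g' with _ | _ | _
    · obtain ⟨c, rfl⟩ := h0.T_none _ e5
      rw [h0.comm, ← map_mul] at *
      have e6 : L0 (j0 ((q.comp f) c)) = 0 := by
        rw [← h0.comm]
        have := h0.L_C c 1
        rw [mul_one] at this
        rw [this, h0.L_one]
      rw [e6, zero_add] at e4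
      have e7 : y * (q.comp f) c ∉ (q.comp f).range := by
        intro h
        exact e2 (((q.comp f).range.mul_mem_cancel_right ⟨c, rfl⟩).1 h)
      rw [e4, hθ2]
      by_cases e8 : y * (q.comp f) c ∈ q.range
      · obtain ⟨y', hy'⟩ := e8
        rw [← hy', hib]
        refine ⟨Fm.b y', 1, 1, by rw [mul_one], ?_, Or.inl ⟨rfl, rfl⟩⟩
        rw [Fm.πb]
        · simp [alt]
        · rintro ⟨c', hc'⟩
          apply e7
          rw [← hy', ← hc']
          exact ⟨c', rfl⟩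
      · refine ⟨1, 0, i2 (i1 (y * (q.comp f) c)), by simp, by simp [alt], Or.inr ⟨by omega,
          Or.inr ⟨rfl, ?_⟩⟩⟩
        exact ⟨i1 (y * (q.comp f) c), 1, by simp, by rw [h2.T_one]; simp, (h1.T_A_of_not e8).1⟩
    · exact absurd e5 e3
    · have e6 := ih (L0 g') (by omega) g' le_rfl (by omega) true e5
      obtain ⟨x, l, h, e7, e8, e9⟩ := e6
      rw [map_mul, hθ2, e4]
      by_cases e10 : y ∈ q.range
      · obtain ⟨y', rfl⟩ := e10
        refine ⟨Fm.b y' * x, l + 1, h, ?_, ?_, ?_⟩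
        · rw [e7, hib, map_mul, map_mul, mul_assoc]
        · rw [map_mul, e8, Fm.πb]
          · simp [alt]
          · rintro ⟨c', hc'⟩
            apply e2
            rw [← hc']
            exact ⟨c', rfl⟩
        · rcases e9 with ⟨e9, e11⟩ | ⟨e9, e11⟩
          · exact Or.inl ⟨e9, by omega⟩
          · exact Or.inr ⟨by omega, e11⟩
      · refine ⟨1, 0, i2 (i1 y) * θ g', by simp, by simp [alt], Or.inr ⟨by omega,
          Or.inr ⟨rfl, ?_⟩⟩⟩
        apply fact_b h1 h2 e10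
        rw [e7]
        rcases e9 with ⟨e9, e11⟩ | ⟨e9, ⟨e11, e12⟩ | ⟨e11, e12⟩⟩
        · rw [e9, mul_one]
          exact fact_h h1 h2 x
        · exact fact_e h1 h2 e12
        · exact fact_a h1 h2 (not_b e8 (by omega) e11) e12
  · obtain ⟨y, g', rfl, e2, e3, e4⟩ := h0.uncons ht
    rcases e5 : T0 g' with _ | _ | _
    · obtain ⟨c, rfl⟩ := h0.T_none _ e5
      rw [← map_mul] at *
      have e6 : L0 (i0 ((r.comp e) c)) = 0 := by
        have := h0.L_C c 1
        rw [mul_one] at this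
        rw [this, h0.L_one]
      rw [e6, zero_add] at e4
      have e7 : y * (r.comp e) c ∉ (r.comp e).range := by
        intro h
        exact e2 (((r.comp e).range.mul_mem_cancel_right ⟨c, rfl⟩).1 h)
      rw [e4, hθ1]
      by_cases e8 : y * (r.comp e) c ∈ r.range
      · obtain ⟨y', hy'⟩ := e8
        rw [← hy', hja]
        refine ⟨Fm.a y', 1, 1, by rw [mul_one], ?_, Or.inl ⟨rfl, rfl⟩⟩
        rw [Fm.πa]
        · simp [alt]
        · rintro ⟨c', hc'⟩
          apply e7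
          rw [← hy', ← hc']
          exact ⟨c', rfl⟩
      · refine ⟨1, 0, j2 (y * (r.comp e) c), by simp, by simp [alt], Or.inr ⟨by omega,
          Or.inl ⟨rfl, ?_⟩⟩⟩
        exact (h2.T_B_of_not e8).1
    · have e6 := ih (L0 g') (by omega) g' le_rfl (by omega) false e5
      obtain ⟨x, l, h, e7, e8, e9⟩ := e6
      rw [map_mul, hθ1, e4]
      by_cases e10 : y ∈ r.range
      · obtain ⟨y', rfl⟩ := e10
        refine ⟨Fm.a y' * x, l + 1, h, ?_, ?_, ?_⟩
        · rw [e7, hja, map_mul, map_mul, mul_assoc]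
        · rw [map_mul, e8, Fm.πa]
          · simp [alt]
          · rintro ⟨c', hc'⟩
            apply e2
            rw [← hc']
            exact ⟨c', rfl⟩
        · rcases e9 with ⟨e9, e11⟩ | ⟨e9, e11⟩
          · exact Or.inl ⟨e9, by omega⟩
          · exact Or.inr ⟨by omega, e11⟩
      · refine ⟨1, 0, j2 y * θ g', by simp, by simp [alt], Or.inr ⟨by omega,
          Or.inl ⟨rfl, ?_⟩⟩⟩
        apply fact_c h2 e10
        rw [e7]
        rcases e9 with ⟨e9, e11⟩ | ⟨e9, ⟨e11, e12⟩ | ⟨e11, e12⟩⟩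
        · rw [e9, mul_one]
          exact fact_g h2 x
        · exact fact_d h1 h2 (not_a he2 e8 (by omega) e11) e12
        · exact fact_f h1 h2 e12
    · exact absurd e5 e3

theorem local_inj (hie : Function.Injective e) (hir : Function.Injective r) (g : G)
    (hg : L0 g < n) (hg1 : θ g = 1) : g = 1 := by
  rcases e1 : T0 g with _ | t
  · obtain ⟨c, rfl⟩ := h0.T_none _ e1
    rw [hθ1] at hg1
    have e2 := h2.injj (hg1.trans (map_one j2).symm)
    have e3 : r (e c) = r (e 1) := by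
      rw [map_one, map_one]
      exact e2
    rw [hie (hir e3), map_one, map_one]
  · exfalso
    have e2 : 0 < L0 g := by
      cases t
      · obtain ⟨_, _, _, _, _, e4⟩ := h0.uncons' e1
        omega
      · obtain ⟨_, _, _, _, _, e4⟩ := h0.uncons e1
        omega
    obtain ⟨x, l, h, e7, e8, e9⟩ := inv_main h1 h2 h0 he2 θ hθ1 hθ2 (L0 g) g le_rfl hg.le t e1
    rw [hg1] at e7
    have e10 : h = i2 (j1 x⁻¹) := by
      rw [map_inv, map_inv]
      exact eq_inv_of_mul_eq_one_right e7.symm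
    rcases e9 with ⟨e9, e11⟩ | ⟨e9, ⟨e11, e12⟩ | ⟨e11, e12⟩⟩
    · rw [e9] at e10
      have e12 : j1 x⁻¹ = 1 := h2.inji (e10.symm.trans (map_one i2).symm)
      have e13 : x⁻¹ = 1 := h1.injj (e12.trans (map_one j1).symm)
      rw [inv_eq_one] at e13
      rw [e13, map_one] at e8
      exact dg_alt_ne_one t l (by omega) (by omega) e8.symm
    · rw [e10] at e12
      exact fact_g h2 _ e12
    · rw [e10] at e12
      exact fact_h h1 h2 _ e12

end

end Pool.Agent.R790.Sep
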