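import Pool.Agent.R790.Sep.LI

/-! The recursive construction. -/

set_option autoImplicit false

namespace Pool.Agent.R790.Sep

open Classical

/-- The data at one stage of the construction. -/
structure St where
  /-- first factor -/
  X : Type
  /-- second factor -/
  Y : Type
  /-- amalgamated subgroup -/
  E : Type
  /-- overgroup of index two in the first factor -/
  P : Type
  /-- second overgroup in the first factor -/
  R : Type
  /-- overgroup of index two in the second factor -/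
  Q : Type
  [gX : Group X]
  [gY : Group Y]
  [gE : Group E]
  [gP : Group P]
  [gR : Group R]
  [gQ : Group Q]
  [fE : Finite E]
  [fP : Finite P]
  [fR : Finite R]
  [fQ : Finite Q]
  e : E →* P
  p : P →* R
  r : R →* X
  f : E →* Q
  q : Q →* Y
  ie : Function.Injective e
  ip : Function.Injective p
  ir : Function.Injective r
  jf : Function.Injective f
  iq : Function.Injective q
  e2 : e.range.index = 2
  p2 : p.range.index = 2
  f2 : f.range.index = 2
  KX : Set X → Prop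
  KY : Set Y → Prop
  lX : ∀ a K, KX K → KX ((fun x => a * x) '' K)
  lY : ∀ a K, KY K → KY ((fun x => a * x) '' K)
  sX : ∀ K K', K ⊆ K' → KX K' → KX K
  sY : ∀ K K', K ⊆ K' → KY K' → KY K
  rX : KX (Set.range r)
  qY : KY (Set.range q)
  wX : WS KX (12 * Nat.card E)
  wY : WS KY (12 * Nat.card E)
  s : Fin 3 → X ⊕ Y
  hsX : ∀ k x, s k = Sum.inl x → KX {1, x}
  hsY : ∀ k y, s k = Sum.inr y → KY {1, y}

attribute [instance] St.gX St.gY St.gE St.gP St.gR St.gQ St.fE St.fP St.fR St.fQ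

theorem am_all {A B C K : Type} [Group A] [Group B] [Group C] [Group K] {α : C →* A}
    {β : C →* B} (Am : Amalgam α β) (k : Am.G →* K) (T : Subgroup K) (h1 : ∀ y, k (Am.i y) ∈ T)
    (h2 : ∀ y, k (Am.j y) ∈ T) (x : Am.G) : k x ∈ T := by
  have h2 : x ∈ Subgroup.closure (Set.range Am.i ∪ Set.range Am.j) := by
    rw [Am.gen]; trivial
  induction h2 using Subgroup.closure_induction with
  | mem x hx =>
    rcases hx with ⟨y, rfl⟩ | ⟨y, rfl⟩
    · exact h1 y
    · exact h2 y
  | one => rw [map_one]; exact one_mem _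
  | mul x y _ _ hx hy => rw [map_mul]; exact mul_mem hx hy
  | inv x _ hx => rw [map_inv]; exact inv_mem hx

theorem fin_all {E P Q K : Type} [Group E] [Group P] [Group Q] [Group K] {e : E →* P}
    {f : E →* Q} {n : ℕ} (Fm : FinAm e f n) (k : Fm.F →* K) (T : Subgroup K)
    (h1 : ∀ y, k (Fm.a y) ∈ T) (h2 : ∀ y, k (Fm.b y) ∈ T) (x : Fm.F) : k x ∈ T := by
  have h2 : x ∈ Subgroup.closure (Set.range Fm.a ∪ Set.range Fm.b) := by
    rw [Fm.gen]; trivial
  induction h2 using Subgroup.closure_induction with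
  | mem x hx =>
    rcases hx with ⟨y, rfl⟩ | ⟨y, rfl⟩
    · exact h1 y
    · exact h2 y
  | one => rw [map_one]; exact one_mem _
  | mul x y _ _ hx hy => rw [map_mul]; exact mul_mem hx hy
  | inv x _ hx => rw [map_inv]; exact inv_mem hx

namespace St

variable (S : St)

/-- the amalgam at this stage -/
noncomputable def am : Amalgam ((S.r.comp S.p).comp S.e) (S.q.comp S.f) :=
  amOf _ _ ((S.ir.comp S.ip).comp S.ie) (S.iq.comp S.jf)

/-- the group at this stage -/
def G : Type := S.am.G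

noncomputable instance : Group S.G := S.am.grp

/-- the embedding of the first factor -/
noncomputable def i : S.X →* S.G := S.am.i

/-- the embedding of the second factor -/
noncomputable def j : S.Y →* S.G := S.am.j

/-- the length -/
noncomputable def L : S.G → ℕ := S.am.L

/-- the type of the first letter -/
noncomputable def T : S.G → Option Bool := S.am.T

theorem str : AmStr ((S.r.comp S.p).comp S.e) (S.q.comp S.f) S.i S.j S.T S.L := S.am.str

/-- the generators at this stage -/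
noncomputable def g (k : Fin 3) : S.G := Sum.elim S.i S.j (S.s k)

theorem amK_sub {A B G : Type} [Group G] {i : A → G} {j : B → G} {KA : Set A → Prop}
    {KB : Set B → Prop} (hA : ∀ K K', K ⊆ K' → KA K' → KA K) (hB : ∀ K K', K ⊆ K' → KB K' → KB K)
    (K K' : Set G) (hK : K ⊆ K') (h : amK i j KA KB K') : amK i j KA KB K := by
  obtain ⟨g, ⟨K1, hK1, rfl⟩ | ⟨K1, hK1, rfl⟩⟩ := h
  · refine ⟨g, Or.inl ⟨(fun x => g * i x) ⁻¹' K ∩ K1, hA _ _ Set.inter_subset_right hK1, ?_⟩⟩
    ext x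
    constructor
    · intro hx
      obtain ⟨y, hy, rfl⟩ := hK hx
      exact ⟨y, ⟨hx, hy⟩, rfl⟩
    · rintro ⟨y, ⟨hy, _⟩, rfl⟩
      exact hy
  · refine ⟨g, Or.inr ⟨(fun x => g * j x) ⁻¹' K ∩ K1, hB _ _ Set.inter_subset_right hK1, ?_⟩⟩
    ext x
    constructor
    · intro hx
      obtain ⟨y, hy, rfl⟩ := hK hx
      exact ⟨y, ⟨hx, hy⟩, rfl⟩
    · rintro ⟨y, ⟨hy, _⟩, rfl⟩
      exact hy

theorem card_two {E P : Type} [Group E] [Group P] (e : E →* P) (ie : Function.Injective e)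
    (e2 : e.range.index = 2) : Nat.card P = 2 * Nat.card E := by
  rw [← Subgroup.card_mul_index e.range, e2]
  have : Nat.card e.range = Nat.card E :=
    (Nat.card_congr (MonoidHom.ofInjective ie).toEquiv).symm
  rw [this]; ring

theorem wG : WS (amK S.i S.j S.KX S.KY) (12 * Nat.card S.E) := by
  refine ws_amalgam S.str S.lX ?_ S.lY ?_ S.wX S.wY (by omega)
  · refine S.sX _ _ ?_ S.rX
    rintro _ ⟨c, rfl⟩
    exact ⟨_, rfl⟩
  · refine S.sY _ _ ?_ S.qY
    rintro _ ⟨c, rfl⟩
    exact ⟨_, rfl⟩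

theorem step_amK (x : S.G) (k : Fin 3) : amK S.i S.j S.KX S.KY {x, x * S.g k} := by
  refine ⟨x, ?_⟩
  unfold St.g
  rcases h : S.s k with a | b
  · refine Or.inl ⟨{1, a}, S.hsX k a h, ?_⟩
    rw [Set.image_pair, map_one, mul_one]
    rfl
  · refine Or.inr ⟨{1, b}, S.hsY k b h, ?_⟩
    rw [Set.image_pair, map_one, mul_one]
    rfl

theorem L_step_aux {A B C G : Type} [Group A] [Group B] [Group C] [Group G]
    {α : C →* A} {β : C →* B} {i : A →* G} {j : B →* G} {T : G → Option Bool} {L : G → ℕ}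
    (h : AmStr α β i j T L) (a : A) (x : G) : L (i a * x) ≤ L x + 1 := by
  by_cases ha : a ∈ α.range
  · obtain ⟨c, rfl⟩ := ha
    rw [h.L_C]; omega
  · by_cases hT : T x = some true
    · obtain ⟨a', x', rfl, h1, h2, h3⟩ := h.uncons hT
      rw [← mul_assoc, ← map_mul]
      by_cases hb : a * a' ∈ α.range
      · obtain ⟨c, hc⟩ := hb
        rw [← hc, h.L_C]; omega
      · rw [(h.consA _ _ hb h2).2]; omega
    · rw [(h.consA _ _ ha hT).2]

theorem L_i (a : S.X) (x : S.G) : S.L (S.i a * x) ≤ S.L x + 1 := L_step_aux S.str a x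

theorem L_j (a : S.Y) (x : S.G) : S.L (S.j a * x) ≤ S.L x + 1 := L_step_aux S.str.swap a x

theorem L_g (k : Fin 3) (x : S.G) : S.L (S.g k * x) ≤ S.L x + 1 := by
  unfold St.g
  rcases S.s k with a | b
  · exact S.L_i a x
  · exact S.L_j b x

theorem L_g_inv (k : Fin 3) (x : S.G) : S.L ((S.g k)⁻¹ * x) ≤ S.L x + 1 := by
  unfold St.g
  rcases S.s k with a | b
  · have := S.L_i a⁻¹ x
    rw [map_inv] at this
    exact this
  · have := S.L_j b⁻¹ x
    rw [map_inv] at this
    exact this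

section next

variable (m : ℕ) (hm : 0 < m) (Fm : FinAm S.e S.f (4 * m))

/-- the new first factor -/
noncomputable def am' : Amalgam S.q Fm.b := amOf _ _ S.iq Fm.injb

/-- the embedding of the amalgamated group in its overgroup -/
def e' : S.P →* Fm.sub 2 := Fm.a.codRestrict (Fm.sub 2) (by
  intro x
  have h1 : Fm.a x ∈ Fm.sub 1 := by
    rw [← Fm.range_a S.e2]
    exact ⟨x, rfl⟩
  obtain ⟨i, hi, hi'⟩ := h1
  refine ⟨i, ?_, hi'⟩
  rw [mem_tor] at hi ⊢
  rw [Nat.cast_one, one_mul] at hi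
  rw [hi, mul_zero])

theorem sub_le : Fm.sub 2 ≤ Fm.sub 4 := by
  rintro x ⟨i, hi, hi'⟩
  refine ⟨i, ?_, hi'⟩
  rw [mem_tor] at hi ⊢
  have : ((4 : ℕ) : ZMod (4 * m)) * i = 2 * (((2 : ℕ) : ZMod (4 * m)) * i) := by
    push_cast; ring
  rw [this, hi, mul_zero]

theorem e'_range : (S.e' m Fm).range = (Fm.sub 1).subgroupOf (Fm.sub 2) := by
  ext ⟨x, hx⟩
  rw [Subgroup.mem_subgroupOf]
  show _ ↔ x ∈ Fm.sub 1
  rw [← Fm.range_a S.e2]
  constructor
  · rintro ⟨y, hy⟩
    exact ⟨y, congrArg Subtype.val hy⟩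
  · rintro ⟨y, hy⟩
    exact ⟨y, Subtype.ext hy⟩

/-- the next stage -/
noncomputable def next : St where
  X := (S.am' m Fm).G
  Y := S.X
  E := S.P
  P := Fm.sub 2
  R := Fm.sub 4
  Q := S.R
  e := S.e' m Fm
  p := Subgroup.inclusion (S.sub_le m Fm)
  r := (S.am' m Fm).j.comp (Fm.sub 4).subtype
  f := S.p
  q := S.r
  ie := by
    intro x y hxy
    exact Fm.inja (congrArg Subtype.val hxy)
  ip := Subgroup.inclusion_injective _
  ir := (S.am' m Fm).str.injj.comp (Subgroup.subtype_injective _)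
  jf := S.ip
  iq := S.ir
  e2 := by
    rw [S.e'_range]
    exact Fm.sub_index hm S.e2 S.f2 1 (Or.inl rfl)
  p2 := by
    rw [Subgroup.inclusion_range]
    exact Fm.sub_index hm S.e2 S.f2 2 (Or.inr rfl)
  f2 := S.p2
  KX := amK (S.am' m Fm).i (S.am' m Fm).j S.KY Fm.KF
  KY := S.KX
  lX := fun a K hK => amK_left a hK
  lY := S.lX
  sX := amK_sub S.sY Fm.KF_sub
  sY := S.sX
  rX := by
    refine ⟨1, Or.inr ⟨(Fm.sub 4 : Set Fm.F), ?_, ?_⟩⟩
    · exact ⟨1, Or.inr fun x hx => ⟨x, hx, (one_mul x).symm⟩⟩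
    · ext x
      constructor
      · rintro ⟨y, rfl⟩
        exact ⟨y.1, y.2, one_mul _⟩
      · rintro ⟨y, hy, rfl⟩
        exact ⟨⟨y, hy⟩, (one_mul _).symm⟩
  qY := S.rX
  wX := by
    have h1 : Nat.card S.P = 2 * Nat.card S.E := card_two S.e S.ie S.e2
    have h2 : Nat.card S.Q = 2 * Nat.card S.E := card_two S.f S.jf S.f2
    refine ws_amalgam (S.am' m Fm).str S.lY S.qY Fm.KF_left ?_
      (S.wY.mono (by omega)) ((Fm.ws_KF hm).mono (by omega)) (by omega)
    refine ⟨1, Or.inl ?_⟩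
    rintro _ ⟨y, rfl⟩
    exact ⟨y, (one_mul _).symm⟩
  wY := by
    have h1 : Nat.card S.P = 2 * Nat.card S.E := card_two S.e S.ie S.e2
    exact S.wX.mono (by omega)
  s := fun k => Sum.elim (fun x => Sum.inr x) (fun y => Sum.inl ((S.am' m Fm).i y)) (S.s k)
  hsX := by
    intro k x hx
    rcases h : S.s k with a | b
    · rw [h] at hx
      cases hx
    · rw [h] at hx
      have h1 := Sum.inl.inj hx
      rw [← h1]
      refine ⟨1, Or.inl ⟨{1, b}, S.hsY k b h, ?_⟩⟩
      rw [Set.image_pair, map_one, mul_one, one_mul]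
  hsY := by
    intro k x hx
    rcases h : S.s k with a | b
    · rw [h] at hx
      have h1 := Sum.inr.inj hx
      rw [← h1]
      exact S.hsX k a h
    · rw [h] at hx
      cases hx

theorem exists_θ : ∃ θ : S.G →* (S.next m hm Fm).G,
    (∀ x, θ (S.i x) = (S.next m hm Fm).j x) ∧
    (∀ y, θ (S.j y) = (S.next m hm Fm).i ((S.am' m Fm).i y)) := by
  refine S.am.lift _ (S.next m hm Fm).j ((S.next m hm Fm).i.comp (S.am' m Fm).i) ?_
  intro c
  have h1 := (S.next m hm Fm).str.comm (S.e c)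
  have h2 := (S.am' m Fm).str.comm (S.f c)
  show (S.next m hm Fm).j (S.r (S.p (S.e c))) = (S.next m hm Fm).i ((S.am' m Fm).i (S.q (S.f c)))
  rw [h2, ← Fm.comm]
  exact h1.symm

end next

theorem exists_next (M : ℕ) : ∃ (S' : St) (θ : S.G →* S'.G) (n : ℕ), M < n ∧
    (∀ k, θ (S.g k) = S'.g k) ∧ Function.Surjective θ ∧
    (∀ x, S.L x < n → θ x = 1 → x = 1) ∧
    Nat.card S'.E = 2 * Nat.card S.E ∧
    (∀ x, ∃ y, θ (S.i x) = S'.j y) ∧ (∀ y, ∃ x, θ (S.j y) = S'.i x) := by
  obtain ⟨m, hM, ⟨Fm⟩⟩ := exists_FinAm S.e S.f S.ie S.jf S.e2 S.f2 M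
  have hm : 0 < m := by omega
  obtain ⟨θ, hθ1, hθ2⟩ := S.exists_θ m hm Fm
  refine ⟨S.next m hm Fm, θ, 4 * m, hM, ?_, ?_, ?_, ?_, ?_, ?_⟩
  · intro k
    unfold St.g
    show _ = Sum.elim (S.next m hm Fm).i (S.next m hm Fm).j
      (Sum.elim (fun x => Sum.inr x) (fun y => Sum.inl ((S.am' m Fm).i y)) (S.s k))
    rcases S.s k with a | b
    · exact hθ1 a
    · exact hθ2 b
  · -- surjectivity
    have hr : θ.range = ⊤ := by
      rw [eq_top_iff]
      have h1 : ∀ x : (S.am' m Fm).G, (S.next m hm Fm).i x ∈ θ.range := by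
        refine am_all (S.am' m Fm) (S.next m hm Fm).i θ.range ?_ ?_
        · intro y
          exact ⟨S.j y, hθ2 y⟩
        · refine fin_all Fm ((S.next m hm Fm).i.comp (S.am' m Fm).j) θ.range ?_ ?_
          · intro z
            refine ⟨S.i (S.r (S.p z)), ?_⟩
            rw [hθ1]
            exact ((S.next m hm Fm).str.comm z).symm
          · intro z
            refine ⟨S.j (S.q z), ?_⟩
            rw [hθ2, (S.am' m Fm).str.comm]
            rfl
      intro x _
      exact am_all (S.next m hm Fm).am (MonoidHom.id _) θ.range h1 (fun y => ⟨S.i y, hθ1 y⟩) x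
    intro x
    have : x ∈ θ.range := by rw [hr]; trivial
    exact this
  · intro x hx hx1
    exact local_inj (S.am' m Fm).str (S.next m hm Fm).str S.str S.e2 θ hθ1 hθ2 S.ie
      (S.ir.comp S.ip) x hx hx1
  · exact card_two S.e S.ie S.e2
  · intro x
    exact ⟨x, hθ1 x⟩
  · intro y
    exact ⟨_, hθ2 y⟩

end St

end Pool.Agent.R790.Sep
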