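import Pool.Agent.R790.Sep.Am

/-! Weighted separators of hypergraphs, and the combination lemma for amalgams. -/

set_option autoImplicit false

namespace Pool.Agent.R790.Sep

open Classical

/-- The hypergraph with hyperedges `𝒦` on `V` has weighted separators of size at most `w`: for every
finite family of weighted subsets of hyperedges there are a set `S` of at most `w` vertices and a
colouring such that every hyperedge is monochromatic outside `S` and the sets which meet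
a colour class outside `S` have at most half of the total weight. -/
def WS {V : Type} (𝒦 : Set V → Prop) (w : ℕ) : Prop :=
  ∀ (ι : Type) [Fintype ι] (K : ι → Finset V) (ω : ι → ℕ),
    (∀ n, ∃ K', 𝒦 K' ∧ (K n : Set V) ⊆ K') →
    ∃ (S : Finset V) (κ : Type) (c : V → κ), S.card ≤ w ∧
      (∀ K', 𝒦 K' → ∀ x ∈ K', ∀ y ∈ K', x ∉ S → y ∉ S → c x = c y) ∧
      ∀ k : κ, 2 * ∑ n ∈ Finset.univ.filter (fun n => ∃ x ∈ K n, x ∉ S ∧ c x = k), ω n ≤ ∑ n, ω n

theorem WS.mono {V : Type} {𝒦 : Set V → Prop} {w w' : ℕ} (h : WS 𝒦 w) (hw : w ≤ w') :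
    WS 𝒦 w' := by
  intro ι _ K ω hK
  obtain ⟨S, κ, c, h1, h2, h3⟩ := h ι K ω hK
  exact ⟨S, κ, c, h1.trans hw, h2, h3⟩

/-- the hyperedges of an amalgam: translates of hyperedges of the factors -/
def amK {A B G : Type} [Group G] (i : A → G) (j : B → G) (KA : Set A → Prop) (KB : Set B → Prop)
    (K' : Set G) : Prop :=
  ∃ g : G, (∃ K, KA K ∧ K' = (fun x => g * i x) '' K) ∨ (∃ K, KB K ∧ K' = (fun x => g * j x) '' K)

section
variable {A B C G : Type} [Group A] [Group B] [Group C] [Group G]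
  {α : C →* A} {β : C →* B} {i : A →* G} {j : B →* G} {T : G → Option Bool} {L : G → ℕ}

theorem amK_left {KA : Set A → Prop} {KB : Set B → Prop} (a : G) {K' : Set G}
    (h : amK i j KA KB K') : amK i j KA KB ((fun x => a * x) '' K') := by
  obtain ⟨g, ⟨K, hK, rfl⟩ | ⟨K, hK, rfl⟩⟩ := h
  · refine ⟨a * g, Or.inl ⟨K, hK, ?_⟩⟩
    rw [Set.image_image]
    simp only [mul_assoc]
  · refine ⟨a * g, Or.inr ⟨K, hK, ?_⟩⟩
    rw [Set.image_image]
    simp only [mul_assoc]

theorem amK_swap {KA : Set A → Prop} {KB : Set B → Prop} {K' : Set G} :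
    amK j i KB KA K' ↔ amK i j KA KB K' := by
  constructor
  · rintro ⟨g, h | h⟩
    · exact ⟨g, Or.inr h⟩
    · exact ⟨g, Or.inl h⟩
  · rintro ⟨g, h | h⟩
    · exact ⟨g, Or.inr h⟩
    · exact ⟨g, Or.inl h⟩

theorem amK_rel {KA : Set A → Prop} {KB : Set B → Prop} {K' : Set G} (h : amK i j KA KB K')
    {x y : G} (hx : x ∈ K') (hy : y ∈ K') : (∃ z, y = x * i z) ∨ (∃ z, y = x * j z) := by
  obtain ⟨g, ⟨K, hK, rfl⟩ | ⟨K, hK, rfl⟩⟩ := h
  · obtain ⟨a, _, rfl⟩ := hx
    obtain ⟨b, _, rfl⟩ := hy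
    refine Or.inl ⟨a⁻¹ * b, ?_⟩
    simp [mul_assoc]
  · obtain ⟨a, _, rfl⟩ := hx
    obtain ⟨b, _, rfl⟩ := hy
    refine Or.inr ⟨a⁻¹ * b, ?_⟩
    simp [mul_assoc]

variable (h : AmStr α β i j T L)
include h

theorem amK_in {KA : Set A → Prop} {KB : Set B → Prop} (hKA : ∀ a K, KA K → KA ((fun x => a * x) '' K))
    (hCA : KA (Set.range α)) (g : G) {K' : Set G} (hK : amK i j KA KB K') {a0 : A}
    (ha0 : g * i a0 ∈ K') : ∃ K1, KA K1 ∧ ∀ a, g * i a ∈ K' → a ∈ K1 := by
  obtain ⟨g', ⟨K, hK, rfl⟩ | ⟨K, hK, rfl⟩⟩ := hK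
  · obtain ⟨k0, hk0, h0⟩ := ha0
    refine ⟨_, hKA (a0 * k0⁻¹) K hK, ?_⟩
    rintro a ⟨k, hk, hh⟩
    refine ⟨k, hk, ?_⟩
    apply h.inji
    have h1 : g' = g * i a0 * (i k0)⁻¹ := by
      simp only at h0
      rw [← h0, mul_inv_cancel_right]
    simp only at hh
    rw [h1] at hh
    have h2 : g * (i a0 * (i k0)⁻¹ * i k) = g * i a := by rw [← hh]; group
    have h3 := mul_left_cancel h2
    simp [← h3]
  · obtain ⟨k0, hk0, h0⟩ := ha0
    refine ⟨_, hKA a0 _ hCA, ?_⟩
    rintro a ⟨k, hk, hh⟩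
    simp only at h0 hh
    have h1 : i (a0⁻¹ * a) = j (k0⁻¹ * k) := by
      rw [map_mul, map_mul, map_inv, map_inv]
      have h2 : i a0 = g⁻¹ * (g' * j k0) := by rw [h0]; group
      have h3 : i a = g⁻¹ * (g' * j k) := by rw [hh]; group
      rw [h2, h3]; group
    obtain ⟨c, hc, _⟩ := h.mem_C_of_eq h1
    exact ⟨α c, ⟨c, rfl⟩, by rw [← hc]; group⟩

theorem br_exists (g x : G) (hx : ¬ ∃ a, x = g * i a) : ∃ a, T ((g * i a)⁻¹ * x) = some false := by
  rcases h1 : T (g⁻¹ * x) with _ | _ | _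
  · obtain ⟨c, hc⟩ := h.T_none _ h1
    exact absurd ⟨α c, by rw [← hc]; group⟩ hx
  · exact ⟨1, by rw [map_one, mul_one]; exact h1⟩
  · obtain ⟨a, g', h2, h3, h4, h5⟩ := h.uncons h1
    have h6 : (g * i a)⁻¹ * x = g' := by
      rw [mul_inv_rev, mul_assoc, h2, inv_mul_cancel_left]
    rcases h7 : T g' with _ | _ | _
    · obtain ⟨c, rfl⟩ := h.T_none _ h7
      refine absurd ⟨a * α c, ?_⟩ hx
      rw [map_mul, ← h2]; group
    · exact ⟨a, by rw [h6]; exact h7⟩
    · exact absurd h7 h4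

theorem br_unique (g x : G) {a b : A} (ha : T ((g * i a)⁻¹ * x) = some false)
    (hb : T ((g * i b)⁻¹ * x) = some false) : a⁻¹ * b ∈ α.range := by
  by_contra hab
  have h1 := (h.consA (a⁻¹ * b) _ hab (by rw [hb]; simp)).1
  have h2 : i (a⁻¹ * b) * ((g * i b)⁻¹ * x) = (g * i a)⁻¹ * x := by
    rw [map_mul, map_inv]; group
  rw [h2, ha] at h1
  simp at h1

theorem br_congr (g x : G) {a b : A} (hab : a⁻¹ * b ∈ α.range) :
    T ((g * i a)⁻¹ * x) = T ((g * i b)⁻¹ * x) := by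
  obtain ⟨c, hc⟩ := hab
  have h2 : i (α c) * ((g * i b)⁻¹ * x) = (g * i a)⁻¹ * x := by
    rw [hc, map_mul, map_inv]; group
  rw [← h2, h.T_C]

theorem br_not (g x : G) {a : A} (ha : T ((g * i a)⁻¹ * x) = some false) : ¬ ∃ a, x = g * i a := by
  rintro ⟨b, rfl⟩
  have h2 : (g * i a)⁻¹ * (g * i b) = i (a⁻¹ * b) := by rw [map_mul, map_inv]; group
  rw [h2] at ha
  exact h.T_A _ ha

theorem br_step {KA : Set A → Prop} {KB : Set B → Prop} {K' : Set G} (hK : amK i j KA KB K')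
    (g : G) {x y : G} (hx : x ∈ K') (hy : y ∈ K') {a : A} (ha : T ((g * i a)⁻¹ * x) = some false) :
    T ((g * i a)⁻¹ * y) = some false ∨ ∃ u, y = g * i (a * α u) := by
  rcases amK_rel hK hx hy with ⟨z, rfl⟩ | ⟨z, rfl⟩
  · left
    rw [← mul_assoc]
    exact h.right_A ha z
  · rcases h1 : T ((g * i a)⁻¹ * (x * j z)) with _ | _ | _
    · right
      obtain ⟨c, hc⟩ := h.T_none _ h1
      refine ⟨c, ?_⟩
      rw [map_mul, ← hc]; group
    · exact Or.inl rfl
    · exfalso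
      have h2 := h.right_B h1 z⁻¹
      have h3 : (g * i a)⁻¹ * (x * j z) * j z⁻¹ = (g * i a)⁻¹ * x := by
        rw [map_inv]; group
      rw [h3, ha] at h2
      simp at h2

theorem sink [Finite C] {KA : Set A → Prop} {KB : Set B → Prop}
    (hKA : ∀ a K, KA K → KA ((fun x => a * x) '' K)) (hCA : KA (Set.range α)) {w : ℕ}
    (hws : WS KA w) {ι : Type} [Fintype ι] (K : ι → Finset G) (ω : ι → ℕ)
    (hK : ∀ n, ∃ K', amK i j KA KB K' ∧ (K n : Set G) ⊆ K') (g : G)
    (hg : ∀ a, 2 * ∑ n ∈ Finset.univ.filter (fun n => ∃ x ∈ K n, T ((g * i a)⁻¹ * x) = some false),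
      ω n ≤ ∑ n, ω n) :
    ∃ (S : Finset G) (κ : Type) (c : G → κ), S.card ≤ w ∧
      (∀ K', amK i j KA KB K' → ∀ x ∈ K', ∀ y ∈ K', x ∉ S → y ∉ S → c x = c y) ∧
      ∀ k : κ, 2 * ∑ n ∈ Finset.univ.filter (fun n => ∃ x ∈ K n, x ∉ S ∧ c x = k), ω n ≤
        ∑ n, ω n := by
  have : Fintype C := Fintype.ofFinite C
  choose br hbr using fun x => br_exists h g x
  choose! Kp hKp1 hKp2 using hK
  have hinj : Function.Injective (fun a : A => g * i a) := by
    intro a b hab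
    exact h.inji (mul_left_cancel hab)
  -- the projected sets
  let K' : ι → Finset A := fun n =>
    if hn : ∃ x, x ∈ K n ∧ ¬ ∃ a, x = g * i a then
      Finset.univ.image (fun u => br hn.choose hn.choose_spec.2 * α u)
    else (K n).preimage (fun a => g * i a) hinj.injOn
  have hK'1 : ∀ n (x : G) (hx : x ∈ K n) (hx' : ¬ ∃ a, x = g * i a), ∃ x0, ∃ (h0 : x0 ∈ K n)
      (h0' : ¬ ∃ a, x0 = g * i a), K' n = Finset.univ.image (fun u => br x0 h0' * α u) := by
    intro n x hx hx'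
    have hn : ∃ x, x ∈ K n ∧ ¬ ∃ a, x = g * i a := ⟨x, hx, hx'⟩
    refine ⟨hn.choose, hn.choose_spec.1, hn.choose_spec.2, ?_⟩
    simp only [K', dif_pos hn]
  have hK'2 : ∀ n, (¬ ∃ x, x ∈ K n ∧ ¬ ∃ a, x = g * i a) →
      K' n = (K n).preimage (fun a => g * i a) hinj.injOn := by
    intro n hn
    simp only [K', dif_neg hn]
  have hK'mem : ∀ n, ∃ K1, KA K1 ∧ (K' n : Set A) ⊆ K1 := by
    intro n
    by_cases hn : ∃ x, x ∈ K n ∧ ¬ ∃ a, x = g * i a
    · obtain ⟨x, hx, hx'⟩ := hn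
      obtain ⟨x0, h0, h0', h1⟩ := hK'1 n x hx hx'
      refine ⟨_, hKA (br x0 h0') _ hCA, ?_⟩
      rw [h1]
      intro a ha
      simp only [Finset.coe_image, Set.mem_image, Finset.coe_univ, Set.mem_univ, true_and] at ha
      obtain ⟨u, rfl⟩ := ha
      exact ⟨α u, ⟨u, rfl⟩, rfl⟩
    · by_cases hne : ∃ a, g * i a ∈ K n
      · obtain ⟨a0, ha0⟩ := hne
        obtain ⟨K1, hK1, hK2⟩ := amK_in h hKA hCA g (hKp1 n) (hKp2 n ha0)
        refine ⟨K1, hK1, ?_⟩
        rw [hK'2 n hn]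
        intro a ha
        simp only [Finset.coe_preimage, Set.mem_preimage] at ha
        exact hK2 a (hKp2 n ha)
      · refine ⟨_, hCA, ?_⟩
        rw [hK'2 n hn]
        intro a ha
        simp only [Finset.coe_preimage, Set.mem_preimage] at ha
        exact absurd ⟨a, ha⟩ hne
  obtain ⟨SA, κA, cA, hS1, hS2, hS3⟩ := hws ι K' ω hK'mem
  let bc : A → κA ⊕ Set A := fun a =>
    if hu : ∃ u, a * α u ∉ SA then Sum.inl (cA (a * α hu.choose))
    else Sum.inr {b | ∃ u, b = a * α u}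
  have bc_in : ∀ a u, a * α u ∉ SA → bc a = Sum.inl (cA (a * α u)) := by
    intro a u hau
    have hu : ∃ u, a * α u ∉ SA := ⟨u, hau⟩
    simp only [bc, dif_pos hu]
    congr 1
    exact hS2 _ (hKA a _ hCA) _ ⟨α hu.choose, ⟨_, rfl⟩, rfl⟩ _ ⟨α u, ⟨_, rfl⟩, rfl⟩
      hu.choose_spec hau
  have bc_eq : ∀ a b, a⁻¹ * b ∈ α.range → bc a = bc b := by
    rintro a b ⟨c, hc⟩
    have hb : b = a * α c := by rw [hc]; group
    by_cases hu : ∃ u, a * α u ∉ SA
    · obtain ⟨u, hu⟩ := hu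
      have h1 : b * α (c⁻¹ * u) = a * α u := by rw [hb, map_mul, map_inv]; group
      rw [bc_in a u hu, bc_in b (c⁻¹ * u) (by rw [h1]; exact hu), h1]
    · have hu' : ¬ ∃ u, b * α u ∉ SA := by
        rintro ⟨u, hu'⟩
        apply hu
        refine ⟨c * u, ?_⟩
        rw [map_mul, ← mul_assoc, ← hb]
        exact hu'
      simp only [bc, dif_neg hu, dif_neg hu']
      congr 1
      ext x
      constructor
      · rintro ⟨u, rfl⟩
        refine ⟨c⁻¹ * u, ?_⟩
        rw [hb, map_mul, map_inv]; group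
      · rintro ⟨u, rfl⟩
        refine ⟨c * u, ?_⟩
        rw [hb, map_mul]; group
  have bc_inr : ∀ a s, bc a = Sum.inr s → a ∈ s ∧ s = {b | ∃ u, b = a * α u} := by
    intro a s has
    by_cases hu : ∃ u, a * α u ∉ SA
    · simp only [bc, dif_pos hu] at has
      cases has
    · simp only [bc, dif_neg hu] at has
      have h1 := Sum.inr.inj has
      rw [← h1]
      exact ⟨⟨1, by simp⟩, rfl⟩
  let c : G → κA ⊕ Set A := fun x =>
    if hx : ∃ a, x = g * i a then Sum.inl (cA hx.choose) else bc (br x hx)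
  have c_in : ∀ a, c (g * i a) = Sum.inl (cA a) := by
    intro a
    have hx : ∃ b, g * i a = g * i b := ⟨a, rfl⟩
    simp only [c, dif_pos hx]
    have : hx.choose = a := hinj hx.choose_spec.symm
    rw [this]
  have c_out : ∀ x a, T ((g * i a)⁻¹ * x) = some false → c x = bc a := by
    intro x a ha
    have hx := br_not h g x ha
    simp only [c, dif_neg hx]
    exact bc_eq _ _ (br_unique h g x (hbr x hx) ha)
  have hSmem : ∀ a, g * i a ∉ SA.image (fun a => g * i a) → a ∉ SA := by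
    intro a ha ha'
    exact ha (Finset.mem_image_of_mem _ ha')
  have key : ∀ K', amK i j KA KB K' → ∀ x ∈ K', ∀ y ∈ K', ∀ a,
      T ((g * i a)⁻¹ * x) = some false → y ∉ SA.image (fun a => g * i a) → c y = bc a := by
    intro K' hK' x hx y hy a ha hyS
    rcases br_step h hK' g hx hy ha with h1 | ⟨u, rfl⟩
    · exact c_out y a h1
    · rw [c_in, bc_in a u (hSmem _ hyS)]
  refine ⟨SA.image (fun a => g * i a), κA ⊕ Set A, c, ?_, ?_, ?_⟩
  · exact Finset.card_image_le.trans hS1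
  · intro K' hK' x hx y hy hxS hyS
    by_cases hxA : ∃ a, x = g * i a
    · by_cases hyA : ∃ a, y = g * i a
      · obtain ⟨a, rfl⟩ := hxA
        obtain ⟨b, rfl⟩ := hyA
        rw [c_in, c_in]
        obtain ⟨K1, hK1, hK2⟩ := amK_in h hKA hCA g hK' hx
        rw [hS2 K1 hK1 a (hK2 a hx) b (hK2 b hy) (hSmem _ hxS) (hSmem _ hyS)]
      · have h1 := hbr y hyA
        rw [c_out y _ h1]
        exact key K' hK' y hy x hx _ h1 hxS
    · have h1 := hbr x hxA
      rw [c_out x _ h1]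
      exact (key K' hK' x hx y hy _ h1 hyS).symm
  · rintro (k | s)
    · refine le_trans (Nat.mul_le_mul_left 2 (Finset.sum_le_sum_of_subset ?_)) (hS3 k)
      intro n hn
      simp only [Finset.mem_filter, Finset.mem_univ, true_and] at hn ⊢
      obtain ⟨x, hx, hxS, hxc⟩ := hn
      by_cases hn : ∃ x, x ∈ K n ∧ ¬ ∃ a, x = g * i a
      · obtain ⟨x', hx', hx''⟩ := hn
        obtain ⟨x0, h0, h0', h1⟩ := hK'1 n x' hx' hx''
        have h2 := key _ (hKp1 n) x0 (hKp2 n h0) x (hKp2 n hx) _ (hbr x0 h0') hxS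
        rw [hxc] at h2
        by_cases hu : ∃ u, br x0 h0' * α u ∉ SA
        · obtain ⟨u, hu⟩ := hu
          rw [bc_in _ u hu] at h2
          refine ⟨br x0 h0' * α u, ?_, hu, (Sum.inl.inj h2).symm⟩
          rw [h1]
          exact Finset.mem_image_of_mem _ (Finset.mem_univ u)
        · simp only [bc, dif_neg hu] at h2
          cases h2
      · have hxA : ∃ a, x = g * i a := by
          by_contra hxA
          exact hn ⟨x, hx, hxA⟩
        obtain ⟨a, rfl⟩ := hxA
        rw [c_in] at hxc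
        refine ⟨a, ?_, hSmem _ hxS, Sum.inl.inj hxc⟩
        rw [hK'2 n hn, Finset.mem_preimage]
        exact hx
    · by_cases hne : ∃ n, ∃ x ∈ K n, x ∉ SA.image (fun a => g * i a) ∧ c x = Sum.inr s
      · obtain ⟨n0, hn0⟩ := hne
        obtain ⟨x0, hx0, _, hc0⟩ := hn0
        have hx0A : ¬ ∃ a, x0 = g * i a := by
          rintro ⟨a, rfl⟩
          rw [c_in] at hc0
          cases hc0
        have hb0 : bc (br x0 hx0A) = Sum.inr s := by
          rw [← c_out x0 _ (hbr x0 hx0A)]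
          exact hc0
        refine le_trans (Nat.mul_le_mul_left 2 (Finset.sum_le_sum_of_subset ?_))
          (hg (br x0 hx0A))
        intro n hn
        simp only [Finset.mem_filter, Finset.mem_univ, true_and] at hn ⊢
        obtain ⟨x, hx, _, hc⟩ := hn
        have hxA : ¬ ∃ a, x = g * i a := by
          rintro ⟨a, rfl⟩
          rw [c_in] at hc
          cases hc
        have hb : bc (br x hxA) = Sum.inr s := by
          rw [← c_out x _ (hbr x hxA)]
          exact hc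
        refine ⟨x, hx, ?_⟩
        obtain ⟨h1, h2⟩ := bc_inr _ _ hb0
        obtain ⟨h3, h4⟩ := bc_inr _ _ hb
        rw [h4] at h1
        obtain ⟨u, hu⟩ := h1
        rw [br_congr h g x (a := br x0 hx0A) (b := br x hxA)]
        · exact hbr x hxA
        · refine ⟨u⁻¹, ?_⟩
          rw [hu, map_inv]; group
      · refine le_trans (le_of_eq ?_) (Nat.zero_le _)
        rw [Nat.mul_eq_zero]
        right
        apply Finset.sum_eq_zero
        intro n hn
        exfalso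
        simp only [Finset.mem_filter, Finset.mem_univ, true_and] at hn
        exact hne ⟨n, hn⟩

end

end Pool.Agent.R790.Sep
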